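import Mathlib

/-! Cauchy-Schwarz for coincidences and additive energies. -/

set_option autoImplicit false

namespace Pool.Agent.Lib.MP_7ab245_nt.Solv.RR

open Finset
open scoped Combinatorics.Additive

variable {H α β : Type*} [DecidableEq H]

theorem card_coinc (P : Finset α) (Q : Finset β) (f : α → H) (g : β → H) (S : Finset H)
    (hS : ∀ x ∈ P, f x ∈ S) :
    #{x ∈ P ×ˢ Q | f x.1 = g x.2} = ∑ v ∈ S, #{x ∈ P | f x = v} * #{y ∈ Q | g y = v} := by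
  rw [Finset.card_eq_sum_card_fiberwise (f := fun x => f x.1) (t := S)]
  · refine Finset.sum_congr rfl fun v _ => ?_
    rw [← Finset.card_product]
    congr 1
    ext ⟨x, y⟩
    simp only [Finset.mem_filter, Finset.mem_product]
    constructor
    · rintro ⟨⟨⟨h1, h2⟩, h3⟩, h4⟩
      exact ⟨⟨h1, h4⟩, h2, h3.symm.trans h4⟩
    · rintro ⟨⟨h1, h4⟩, h2, h5⟩
      exact ⟨⟨⟨h1, h2⟩, h4.trans h5.symm⟩, h4⟩
  · intro x hx
    rw [Finset.coe_filter, Set.mem_setOf_eq] at hx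
    exact hS _ (Finset.mem_product.1 hx.1).1

/-- Cauchy-Schwarz for the number of coincidences of two maps. -/
theorem gcs (P : Finset α) (Q : Finset β) (f : α → H) (g : β → H) :
    #{x ∈ P ×ˢ Q | f x.1 = g x.2} ^ 2 ≤
      #{x ∈ P ×ˢ P | f x.1 = f x.2} * #{x ∈ Q ×ˢ Q | g x.1 = g x.2} := by
  classical
  set S := P.image f ∪ Q.image g with hS
  have h1 : ∀ x ∈ P, f x ∈ S := fun x hx =>
    Finset.mem_union_left _ (Finset.mem_image_of_mem _ hx)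
  have h2 : ∀ x ∈ Q, g x ∈ S := fun x hx =>
    Finset.mem_union_right _ (Finset.mem_image_of_mem _ hx)
  rw [card_coinc P Q f g S h1, card_coinc P P f f S h1, card_coinc Q Q g g S h2]
  have h3 := Finset.sum_mul_sq_le_sq_mul_sq S (fun v => #{x ∈ P | f x = v})
    (fun v => #{y ∈ Q | g y = v})
  simpa only [sq] using h3

variable [AddCommGroup H]

theorem diff_energy (A : Finset H) :
    #{x ∈ (A ×ˢ A) ×ˢ A ×ˢ A | x.1.1 - x.1.2 = x.2.1 - x.2.2} = E[A] := by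
  rw [Finset.addEnergy]
  refine Finset.card_nbij' (fun x => (x.1, x.2.swap)) (fun x => (x.1, x.2.swap)) ?_ ?_ ?_ ?_
  · rintro ⟨⟨a, b⟩, c, d⟩ h
    simp only [Finset.coe_filter, Finset.mem_product, Set.mem_setOf_eq, Prod.swap] at h ⊢
    refine ⟨⟨h.1.1, h.1.2.2, h.1.2.1⟩, ?_⟩
    have := h.2
    rw [sub_eq_sub_iff_add_eq_add] at this
    rw [this, add_comm]
  · rintro ⟨⟨a, b⟩, c, d⟩ h
    simp only [Finset.coe_filter, Finset.mem_product, Set.mem_setOf_eq, Prod.swap] at h ⊢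
    refine ⟨⟨h.1.1, h.1.2.2, h.1.2.1⟩, ?_⟩
    rw [sub_eq_sub_iff_add_eq_add, h.2, add_comm]
  · rintro ⟨⟨a, b⟩, c, d⟩ _
    rfl
  · rintro ⟨⟨a, b⟩, c, d⟩ _
    rfl

/-- number of solutions of `a - a' = b - b'` with `a, a' ∈ A`, `b, b' ∈ B` -/
theorem cross_energy (A B : Finset H) :
    #{x ∈ (A ×ˢ A) ×ˢ B ×ˢ B | x.1.1 - x.1.2 = x.2.1 - x.2.2} ^ 2 ≤ E[A] * E[B] := by
  have h := gcs (A ×ˢ A) (B ×ˢ B) (fun x => x.1 - x.2) (fun x => x.1 - x.2)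
  rwa [diff_energy, diff_energy] at h

/-- number of solutions of `a - b = c - d` in four sets -/
theorem four_energy (A B C D : Finset H) (e : ℕ) (hA : E[A] ≤ e) (hB : E[B] ≤ e) (hC : E[C] ≤ e)
    (hD : E[D] ≤ e) :
    #{x ∈ (A ×ˢ B) ×ˢ C ×ˢ D | x.1.1 - x.1.2 = x.2.1 - x.2.2} ≤ e := by
  have key : ∀ A B : Finset H, E[A] ≤ e → E[B] ≤ e →
      #{x ∈ (A ×ˢ B) ×ˢ A ×ˢ B | x.1.1 - x.1.2 = x.2.1 - x.2.2} ≤ e := by
    intro A B hA hB
    have h1 : #{x ∈ (A ×ˢ B) ×ˢ A ×ˢ B | x.1.1 - x.1.2 = x.2.1 - x.2.2} =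
        #{x ∈ (A ×ˢ A) ×ˢ B ×ˢ B | x.1.1 - x.1.2 = x.2.1 - x.2.2} := by
      refine Finset.card_nbij' (fun x => ((x.1.1, x.2.1), x.1.2, x.2.2))
        (fun x => ((x.1.1, x.2.1), x.1.2, x.2.2)) ?_ ?_ ?_ ?_
      · rintro ⟨⟨a, b⟩, c, d⟩ h
        simp only [Finset.coe_filter, Finset.mem_product, Set.mem_setOf_eq] at h ⊢
        refine ⟨⟨⟨h.1.1.1, h.1.2.1⟩, h.1.1.2, h.1.2.2⟩, ?_⟩
        have := h.2
        rw [sub_eq_sub_iff_sub_eq_sub] at this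
        exact this
      · rintro ⟨⟨a, b⟩, c, d⟩ h
        simp only [Finset.coe_filter, Finset.mem_product, Set.mem_setOf_eq] at h ⊢
        refine ⟨⟨⟨h.1.1.1, h.1.2.1⟩, h.1.1.2, h.1.2.2⟩, ?_⟩
        have := h.2
        rw [sub_eq_sub_iff_sub_eq_sub] at this
        exact this
      · rintro ⟨⟨a, b⟩, c, d⟩ _
        rfl
      · rintro ⟨⟨a, b⟩, c, d⟩ _
        rfl
    rw [h1]
    have h2 := cross_energy A B
    have h3 : E[A] * E[B] ≤ e ^ 2 := by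
      rw [sq]
      exact Nat.mul_le_mul hA hB
    exact (Nat.pow_le_pow_iff_left (by norm_num)).1 (h2.trans h3)
  have h := gcs (A ×ˢ B) (C ×ˢ D) (fun x => x.1 - x.2) (fun x => x.1 - x.2)
  have h3 := key A B hA hB
  have h4 := key C D hC hD
  have h5 : #{x ∈ (A ×ˢ B) ×ˢ A ×ˢ B | x.1.1 - x.1.2 = x.2.1 - x.2.2} *
      #{x ∈ (C ×ˢ D) ×ˢ C ×ˢ D | x.1.1 - x.1.2 = x.2.1 - x.2.2} ≤ e ^ 2 := by
    rw [sq]
    exact Nat.mul_le_mul h3 h4
  exact (Nat.pow_le_pow_iff_left (by norm_num)).1 (h.trans h5)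

/-- the energy of a set which is a union of classes -/
theorem energy_le_classes {κ : Type*} [DecidableEq κ] (X : Finset H) (cl : H → κ) (e k : ℕ)
    (hk : #(X.image cl) ≤ k) (he : ∀ c ∈ X.image cl, E[X.filter (fun x => cl x = c)] ≤ e) :
    E[X] ≤ k ^ 4 * e := by
  rw [← diff_energy]
  set L := X.image cl with hL
  set T := {x ∈ (X ×ˢ X) ×ˢ X ×ˢ X | x.1.1 - x.1.2 = x.2.1 - x.2.2} with hT
  rw [Finset.card_eq_sum_card_fiberwise (f := fun x : (H × H) × H × H =>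
    ((cl x.1.1, cl x.1.2), cl x.2.1, cl x.2.2)) (t := (L ×ˢ L) ×ˢ L ×ˢ L)]
  · have h1 : ∀ c ∈ (L ×ˢ L) ×ˢ L ×ˢ L, #{x ∈ T | ((cl x.1.1, cl x.1.2), cl x.2.1, cl x.2.2) = c}
        ≤ e := by
      rintro ⟨⟨c1, c2⟩, c3, c4⟩ hc
      simp only [Finset.mem_product] at hc
      refine le_trans (Finset.card_le_card ?_) (four_energy (X.filter fun x => cl x = c1)
        (X.filter fun x => cl x = c2) (X.filter fun x => cl x = c3) (X.filter fun x => cl x = c4)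
        e (he _ hc.1.1) (he _ hc.1.2) (he _ hc.2.1) (he _ hc.2.2))
      rintro ⟨⟨a, b⟩, c, d⟩ h
      rw [hT] at h
      simp only [Finset.mem_filter, Finset.mem_product, Prod.mk.injEq] at h ⊢
      exact ⟨⟨⟨⟨h.1.1.1.1, h.2.1.1⟩, h.1.1.1.2, h.2.1.2⟩, ⟨h.1.1.2.1, h.2.2.1⟩, h.1.1.2.2, h.2.2.2⟩,
        h.1.2⟩
    refine (Finset.sum_le_card_nsmul _ _ _ h1).trans ?_
    rw [smul_eq_mul, Finset.card_product, Finset.card_product]
    refine Nat.mul_le_mul_right _ ?_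
    calc #L * #L * (#L * #L) ≤ k * k * (k * k) := by gcongr
      _ = k ^ 4 := by ring
  · rintro ⟨⟨a, b⟩, c, d⟩ h
    rw [hT] at h
    simp only [Finset.coe_filter, Finset.mem_product, Set.mem_setOf_eq, Finset.coe_product,
      Set.mem_prod, Finset.mem_coe] at h ⊢
    exact ⟨⟨Finset.mem_image_of_mem _ h.1.1.1, Finset.mem_image_of_mem _ h.1.1.2⟩,
      Finset.mem_image_of_mem _ h.1.2.1, Finset.mem_image_of_mem _ h.1.2.2⟩

/-- an equation with many solutions forces large energy -/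
theorem energy_of_solutions [Module ℚ H] (X : Finset H) (c₀ c₁ c₂ : ℚ) (h₀ : c₀ ≠ 0)
    (h₁ : c₁ ≠ 0) (h₂ : c₂ ≠ 0) (u : H) :
    #{y ∈ X ×ˢ X ×ˢ X | c₀ • y.1 + c₁ • y.2.1 + c₂ • y.2.2 = u} ^ 2 ≤ #X * E[X] := by
  set S := {y ∈ X ×ˢ X ×ˢ X | c₀ • y.1 + c₁ • y.2.1 + c₂ • y.2.2 = u} with hS
  have h1 := gcs S X (fun y => y.1) (fun x => x)
  have h2 : #{x ∈ S ×ˢ X | x.1.1 = x.2} = #S := by
    symm
    refine Finset.card_nbij' (fun y => (y, y.1)) (fun x => x.1) ?_ ?_ ?_ ?_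
    · intro y hy
      rw [Finset.mem_coe] at hy
      rw [Finset.mem_coe, Finset.mem_filter, Finset.mem_product]
      refine ⟨⟨hy, ?_⟩, rfl⟩
      rw [hS, Finset.mem_filter, Finset.mem_product] at hy
      exact hy.1.1
    · intro x hx
      rw [Finset.mem_coe, Finset.mem_filter, Finset.mem_product] at hx
      exact hx.1.1
    · intro y _
      rfl
    · rintro ⟨y, x⟩ hx
      rw [Finset.mem_coe, Finset.mem_filter] at hx
      exact Prod.ext rfl hx.2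
  have h3 : #{x ∈ X ×ˢ X | x.1 = x.2} = #X := by
    symm
    refine Finset.card_nbij' (fun y => (y, y)) (fun x => x.1) ?_ ?_ ?_ ?_
    · intro y hy
      rw [Finset.mem_coe] at hy
      rw [Finset.mem_coe, Finset.mem_filter, Finset.mem_product]
      exact ⟨⟨hy, hy⟩, rfl⟩
    · intro x hx
      rw [Finset.mem_coe, Finset.mem_filter, Finset.mem_product] at hx
      exact hx.1.1
    · intro y _
      rfl
    · rintro ⟨y, x⟩ hx
      rw [Finset.mem_coe, Finset.mem_filter] at hx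
      exact Prod.ext rfl hx.2
  rw [h2, h3] at h1
  have h4 : #{x ∈ S ×ˢ S | x.1.1 = x.2.1} ≤
      #{x ∈ (X ×ˢ X) ×ˢ X ×ˢ X | c₁ • (x.1.1 - x.1.2) = c₂ • (x.2.1 - x.2.2)} := by
    refine Finset.card_le_card_of_injOn
      (fun x => ((x.1.2.1, x.2.2.1), x.2.2.2, x.1.2.2)) ?_ ?_
    · rintro ⟨⟨a, b, c⟩, a', b', c'⟩ hx
      rw [hS] at hx
      simp only [Finset.coe_filter, Finset.mem_product, Finset.mem_filter, Set.mem_setOf_eq] at hx ⊢
      obtain ⟨⟨⟨⟨-, hb, hc⟩, e1⟩, ⟨-, hb', hc'⟩, e2⟩, e3⟩ := hx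
      refine ⟨⟨⟨hb, hb'⟩, hc', hc⟩, ?_⟩
      rw [e3] at e1
      have e4 : c₁ • b + c₂ • c = c₁ • b' + c₂ • c' := by
        have := e1.trans e2.symm
        rw [add_assoc, add_assoc] at this
        exact add_left_cancel this
      rw [smul_sub, smul_sub, sub_eq_sub_iff_add_eq_add, e4, add_comm]
    · rintro ⟨⟨a, b, c⟩, a', b', c'⟩ hx ⟨⟨d, e, f⟩, d', e', f'⟩ hy h
      rw [hS] at hx hy
      simp only [Finset.coe_filter, Finset.mem_product, Finset.mem_filter, Set.mem_setOf_eq] at hx hy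
      simp only [Prod.mk.injEq] at h
      obtain ⟨⟨hb, hb'⟩, hc', hc⟩ := h
      obtain ⟨⟨⟨-, e1⟩, -, e2⟩, e3⟩ := hx
      obtain ⟨⟨⟨-, e1'⟩, -, e2'⟩, e3'⟩ := hy
      rw [hb, hc, ← e1', add_left_inj, add_left_inj] at e1
      rw [hb', hc', ← e2', add_left_inj, add_left_inj] at e2
      have e4 := smul_right_injective H h₀ e1
      have e5 := smul_right_injective H h₀ e2
      rw [e4, e5, hb, hb', hc, hc']
  have h5 : #{x ∈ (X ×ˢ X) ×ˢ X ×ˢ X | c₁ • (x.1.1 - x.1.2) = c₂ • (x.2.1 - x.2.2)} ≤ E[X] := by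
    have h6 := gcs (X ×ˢ X) (X ×ˢ X) (fun x => c₁ • (x.1 - x.2)) (fun x => c₂ • (x.1 - x.2))
    have h7 : ∀ c : ℚ, c ≠ 0 → #{x ∈ (X ×ˢ X) ×ˢ X ×ˢ X | c • (x.1.1 - x.1.2) =
        c • (x.2.1 - x.2.2)} = E[X] := by
      intro c hc
      rw [← diff_energy]
      congr 1
      ext x
      simp only [Finset.mem_filter]
      constructor
      · rintro ⟨a, b⟩
        exact ⟨a, smul_right_injective H hc b⟩
      · rintro ⟨a, b⟩
        exact ⟨a, by rw [b]⟩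
    rw [h7 c₁ h₁, h7 c₂ h₂, ← sq] at h6
    exact (Nat.pow_le_pow_iff_left (by norm_num)).1 h6
  calc #S ^ 2 ≤ _ := h1
    _ ≤ E[X] * #X := Nat.mul_le_mul_right _ (h4.trans h5)
    _ = #X * E[X] := mul_comm _ _

end Pool.Agent.Lib.MP_7ab245_nt.Solv.RR
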