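import Mathlib

/-! Divisibility by powers of two in a finitely generated subgroup of a rational vector space. -/

set_option autoImplicit false

namespace Pool.Agent.Lib.MP_7ab245_nt.Solv.RR

open Finset

variable {W : Type*} [AddCommGroup W] [Module ℚ W]

/-- the group generated by `X` -/
def lat (X : Finset W) : Submodule ℤ W := Submodule.span ℤ (X : Set W)

/-- `v` is `2 ^ i` times an element of the group generated by `X` -/
def Dv (X : Finset W) (i : ℕ) (v : W) : Prop := ∃ u ∈ lat X, (2 : ℤ) ^ i • u = v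

theorem dv_bound (X : Finset W) (v : W) (hv : v ≠ 0) : ∃ i₀ : ℕ, ∀ i, Dv X i v → i < i₀ := by
  classical
  by_cases hvX : v ∈ lat X
  · have _i1 : Module.Finite ℤ (lat X) :=
      Module.Finite.span_of_finite ℤ (Finset.finite_toSet X)
    have i0 : IsAddTorsionFree W := IsAddTorsionFree.of_module_rat W
    have _i2 : IsAddTorsionFree (lat X) := by
      refine ⟨fun n hn a b hab => ?_⟩
      apply Subtype.ext
      exact i0.nsmul_right_injective hn (by
        have := congrArg Subtype.val hab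
        simpa using this)
    have _i3 : Module.Free ℤ (lat X) := inferInstance
    set b := Module.Free.chooseBasis ℤ (lat X) with hb
    have h1 : b.repr ⟨v, hvX⟩ ≠ 0 := by
      intro h
      have h2 : (⟨v, hvX⟩ : lat X) = 0 := by
        have := b.repr.map_eq_zero_iff.1 h
        exact this
      exact hv (congrArg Subtype.val h2)
    obtain ⟨k, hk⟩ := Finsupp.ne_iff.1 h1
    rw [Finsupp.zero_apply] at hk
    refine ⟨(b.repr ⟨v, hvX⟩ k).natAbs, fun i hi => ?_⟩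
    obtain ⟨u, hu, huv⟩ := hi
    have h3 : (⟨v, hvX⟩ : lat X) = (2 : ℤ) ^ i • ⟨u, hu⟩ := by
      apply Subtype.ext
      rw [Submodule.coe_smul]
      exact huv.symm
    have h4 : b.repr ⟨v, hvX⟩ k = (2 : ℤ) ^ i * b.repr ⟨u, hu⟩ k := by
      conv_lhs => rw [h3]
      rw [map_smul, Finsupp.smul_apply, smul_eq_mul]
    have h5 : (2 : ℤ) ^ i ∣ b.repr ⟨v, hvX⟩ k := ⟨_, h4⟩
    have h6 : (2 ^ i : ℕ) ∣ (b.repr ⟨v, hvX⟩ k).natAbs := by
      have := Int.natAbs_dvd_natAbs.2 h5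
      rwa [Int.natAbs_pow] at this
    have h7 := Nat.le_of_dvd (Int.natAbs_pos.2 hk) h6
    exact lt_of_lt_of_le Nat.lt_two_pow_self h7
  · refine ⟨0, fun i hi => ?_⟩
    obtain ⟨u, hu, huv⟩ := hi
    exact absurd (huv ▸ (lat X).smul_mem _ hu) hvX

/-- the largest power of two dividing a difference `a - b` with `a ≠ ± b` -/
theorem exists_max (X : Finset W) (h : ∃ a ∈ X, ∃ b ∈ X, a ≠ b ∧ a ≠ -b) :
    ∃ i : ℕ, (∃ a ∈ X, ∃ b ∈ X, a ≠ b ∧ a ≠ -b ∧ Dv X i (a - b)) ∧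
      ∀ a ∈ X, ∀ b ∈ X, Dv X (i + 1) (a - b) → a = b ∨ a = -b := by
  classical
  set S : Set ℕ := {i | ∃ a ∈ X, ∃ b ∈ X, a ≠ b ∧ a ≠ -b ∧ Dv X i (a - b)} with hS
  have hne : S.Nonempty := by
    obtain ⟨a, ha, b, hb, h1, h2⟩ := h
    refine ⟨0, a, ha, b, hb, h1, h2, a - b, ?_, by simp⟩
    exact (lat X).sub_mem (Submodule.subset_span ha) (Submodule.subset_span hb)
  have hbd : BddAbove S := by
    have h3 : ∀ p : W × W, ∃ i₀ : ℕ, p.1 - p.2 ≠ 0 → ∀ i, Dv X i (p.1 - p.2) → i < i₀ := by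
      intro p
      by_cases hp : p.1 - p.2 ≠ 0
      · obtain ⟨i₀, hi⟩ := dv_bound X _ hp
        exact ⟨i₀, fun _ => hi⟩
      · exact ⟨0, fun h => absurd h hp⟩
    choose f hf using h3
    refine ⟨∑ p ∈ X ×ˢ X, f p, ?_⟩
    rintro i ⟨a, ha, b, hb, h1, _, h2⟩
    have h4 := hf (a, b) (sub_ne_zero.2 h1) i h2
    have h5 : f (a, b) ≤ ∑ p ∈ X ×ˢ X, f p :=
      Finset.single_le_sum (f := f) (fun _ _ => Nat.zero_le _) (Finset.mem_product.2 ⟨ha, hb⟩)
    omega
  refine ⟨sSup S, Nat.sSup_mem hne hbd, ?_⟩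
  intro a ha b hb hd
  by_contra hcon
  push Not at hcon
  have h6 : sSup S + 1 ∈ S := ⟨a, ha, b, hb, hcon.1, hcon.2, hd⟩
  have h7 := le_csSup hbd h6
  omega

end Pool.Agent.Lib.MP_7ab245_nt.Solv.RR
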