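import Mathlib
import Pool.Agent.Lib.MP_ac5134_an.FR.BFinal

/-! A set with large additive energy on which `b₁ + 2 b₂` is almost injective is small. -/

set_option autoImplicit false

namespace Pool.Agent.Lib.MP_7ab245_nt.Solv.RR

open Finset
open scoped Combinatorics.Additive Pointwise

/-- the constant of the theorem of Balog-Szemerédi-Gowers -/
def PB (D : ℕ) : ℕ := (128 * D ^ 2 * (4096 * (2 * D) ^ 8) ^ 2) ^ 2 + 16 * D

theorem card_three_le {H : Type} [AddCommGroup H] [DecidableEq H] (Y : Finset H)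
    (hY : Y.Nonempty) (P : ℕ) (h : #(Y + Y) ≤ P * #Y) : #(3 • Y) ≤ P ^ 3 * #Y := by
  have h1 := Finset.pluennecke_ruzsa_inequality_nsmul_add hY Y 3
  have hY0 : (0 : ℚ≥0) < #Y := by exact_mod_cast hY.card_pos
  have h2 : (#(Y + Y) / #Y : ℚ≥0) ≤ P := by
    rw [div_le_iff₀ hY0]
    exact_mod_cast h
  have h3 : (#(3 • Y) : ℚ≥0) ≤ (P : ℚ≥0) ^ 3 * #Y := by
    refine h1.trans ?_
    gcongr
  exact_mod_cast h3

theorem small_class {H : Type} [AddCommGroup H] [Module ℚ H] [DecidableEq H] (X : Finset H)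
    (hX : X.Nonempty) (K : ℕ) (hE : #X ^ 3 ≤ K * E[X])
    (hinj : ∀ b₁ ∈ X, ∀ b₂ ∈ X, ∀ b₁' ∈ X, ∀ b₂' ∈ X, b₁ + (b₂ + b₂) = b₁' + (b₂' + b₂') →
      b₁' = b₁ ∨ b₁' = -b₁) : #X ≤ 2 * PB K ^ 4 := by
  obtain ⟨Y, hYX, h1, h2⟩ :=
    Pool.Agent.MPac5134.BSG.bsg_explicit K X hX hE
  have h1' : #X ≤ PB K * #Y := h1
  have h2' : #(Y + Y) ≤ PB K * #Y := h2
  have hY : Y.Nonempty := by
    rw [Finset.nonempty_iff_ne_empty]
    rintro rfl
    rw [Finset.card_empty, mul_zero] at h1'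
    have := hX.card_pos
    omega
  have h3 := card_three_le Y hY (PB K) h2'
  have h4 : #(Y ×ˢ Y) ≤ 2 * #((Y ×ˢ Y).image fun b => b.1 + (b.2 + b.2)) := by
    refine Finset.card_le_mul_card_image _ _ ?_
    intro v hv
    rw [Finset.mem_image] at hv
    obtain ⟨⟨b₁, b₂⟩, hb, hbv⟩ := hv
    rw [Finset.mem_product] at hb
    refine le_trans (Finset.card_le_card_of_injOn (fun b => b.1) (t := {b₁, -b₁}) ?_ ?_)
      Finset.card_le_two
    · rintro ⟨b₁', b₂'⟩ hb'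
      rw [Finset.mem_coe, Finset.mem_filter, Finset.mem_product] at hb'
      have h5 := hinj b₁ (hYX hb.1) b₂ (hYX hb.2) b₁' (hYX hb'.1.1) b₂' (hYX hb'.1.2)
        (hbv.trans hb'.2.symm)
      rw [Finset.mem_coe, Finset.mem_insert, Finset.mem_singleton]
      exact h5
    · rintro ⟨b₁', b₂'⟩ hb' ⟨c₁, c₂⟩ hc h
      rw [Finset.mem_coe, Finset.mem_filter] at hb' hc
      have h5 : b₁' = c₁ := h
      have h6 : b₁' + (b₂' + b₂') = c₁ + (c₂ + c₂) := hb'.2.trans hc.2.symm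
      rw [h5, add_right_inj, ← two_smul ℚ b₂', ← two_smul ℚ c₂] at h6
      have h7 := smul_right_injective H (two_ne_zero (α := ℚ)) h6
      rw [h5, h7]
  have h5 : ((Y ×ˢ Y).image fun b => b.1 + (b.2 + b.2)) ⊆ 3 • Y := by
    intro v hv
    rw [Finset.mem_image] at hv
    obtain ⟨⟨b₁, b₂⟩, hb, rfl⟩ := hv
    rw [Finset.mem_product] at hb
    have h6 : (3 : ℕ) • Y = Y + (Y + Y) := by
      rw [succ_nsmul, two_nsmul, add_comm]
    rw [h6]
    exact Finset.add_mem_add hb.1 (Finset.add_mem_add hb.2 hb.2)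
  have h6 : #Y * #Y ≤ (2 * PB K ^ 3) * #Y := by
    rw [← Finset.card_product]
    calc #(Y ×ˢ Y) ≤ 2 * #(3 • Y) := h4.trans (Nat.mul_le_mul_left _ (Finset.card_le_card h5))
      _ ≤ 2 * (PB K ^ 3 * #Y) := Nat.mul_le_mul_left _ h3
      _ = (2 * PB K ^ 3) * #Y := by ring
  have h7 : #Y ≤ 2 * PB K ^ 3 := Nat.le_of_mul_le_mul_right h6 hY.card_pos
  calc #X ≤ PB K * #Y := h1'
    _ ≤ PB K * (2 * PB K ^ 3) := Nat.mul_le_mul_left _ h7
    _ = 2 * PB K ^ 4 := by ring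

end Pool.Agent.Lib.MP_7ab245_nt.Solv.RR
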