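import Mathlib
import Pool.Agent.Lib.MP_7ab245_nt.Solv.SX.ASDefs
import Pool.Agent.Lib.MP_7ab245_nt.Solv.RR.GCS
import Pool.Agent.Lib.MP_7ab245_nt.Solv.RR.Small
import Pool.Agent.Lib.MP_7ab245_nt.Solv.RR.Latt

/-! The classes of an orbit modulo the largest possible power of two: an orbit with the pair bound
and with large additive energy is small. -/

set_option autoImplicit false

namespace Pool.Agent.Lib.MP_7ab245_nt.Solv.RR

open Finset SX
open scoped Combinatorics.Additive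

variable {G W : Type} [Group G] [Finite G] [AddCommGroup W] [Module ℚ W]
  (ρ : Representation ℚ G W) (w : W)

theorem rho_mul (a b : G) (v : W) : ρ (a * b) v = ρ a (ρ b v) := by
  rw [map_mul]; rfl

theorem rho_inv (a : G) (v : W) : ρ a⁻¹ (ρ a v) = v := by
  rw [← rho_mul, inv_mul_cancel, map_one]; rfl

theorem rho_inv' (a : G) (v : W) : ρ a (ρ a⁻¹ v) = v := by
  rw [← rho_mul, mul_inv_cancel, map_one]; rfl

theorem rho_inj (a : G) : Function.Injective (ρ a) := fun x y h => by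
  rw [← rho_inv ρ a x, h, rho_inv]

/-- the orbit -/
noncomputable def orb : Finset W := (Set.finite_range fun g : G => ρ g w).toFinset

theorem mem_orb (v : W) : v ∈ orb ρ w ↔ ∃ g : G, ρ g w = v := by
  rw [orb, Set.Finite.mem_toFinset, Set.mem_range]

theorem card_orb : #(orb ρ w) = osz ρ w := by
  rw [orb, osz, Nat.card_coe_set_eq, Set.ncard_eq_toFinset_card _ (Set.finite_range _)]

theorem rho_mem_orb (g : G) {v : W} (hv : v ∈ orb ρ w) : ρ g v ∈ orb ρ w := by
  obtain ⟨h, rfl⟩ := (mem_orb ρ w v).1 hv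
  exact (mem_orb ρ w _).2 ⟨g * h, rho_mul ρ g h w⟩

/-- proportional vectors of the orbit are equal up to sign -/
theorem prop_pm (hw : w ≠ 0) (a b : G) (c : ℚ) (h : c • ρ b w = ρ a w) : SameL ρ w a b := by
  set g := b⁻¹ * a with hg
  have h1 : ρ g w = c • w := by
    rw [hg, rho_mul, ← h, map_smul, rho_inv]
  have h2 : ∀ k : ℕ, ρ (g ^ k) w = c ^ k • w := by
    intro k
    induction k with
    | zero => simp
    | succ k ih => rw [pow_succ, rho_mul, h1, map_smul, ih, smul_smul, pow_succ, mul_comm]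
  have h3 : c ^ orderOf g = 1 := by
    have h4 := h2 (orderOf g)
    rw [pow_orderOf_eq_one, map_one] at h4
    have h5 : (1 : ℚ) • w = c ^ orderOf g • w := by rw [one_smul]; exact h4
    exact (smul_left_injective ℚ hw h5).symm
  have h6 : 0 < orderOf g := orderOf_pos g
  have h7 : |c| = 1 := by
    have h8 : |c| ^ orderOf g = 1 := by rw [← abs_pow, h3, abs_one]
    exact (pow_eq_one_iff_of_nonneg (abs_nonneg c) h6.ne').1 h8
  rcases eq_or_eq_neg_of_abs_eq h7 with h8 | h8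
  · left
    rw [← h, h8, one_smul]
  · right
    rw [← h, h8, neg_smul, one_smul]

theorem indep_pair (hw : w ≠ 0) (a b : G) (h : ¬ SameL ρ w a b) :
    LinearIndependent ℚ (fun i => ρ ((![a, b] : Fin 2 → G) i) w) := by
  rw [linearIndependent_fin2]
  refine ⟨?_, fun c hc => ?_⟩
  · change ρ b w ≠ 0
    intro h0
    exact hw (rho_inj ρ b (by rw [h0, map_zero]))
  · exact h (prop_pm ρ w hw a b c hc)

theorem rho_lat (g : G) (u : W) (hu : u ∈ lat (orb ρ w)) : ρ g u ∈ lat (orb ρ w) := by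
  unfold lat at *
  induction hu using Submodule.span_induction with
  | mem x hx => exact Submodule.subset_span (rho_mem_orb ρ w g hx)
  | zero => rw [map_zero]; exact Submodule.zero_mem _
  | add x y _ _ hx hy => rw [map_add]; exact Submodule.add_mem _ hx hy
  | smul a x _ hx => rw [map_zsmul]; exact Submodule.smul_mem _ a hx

theorem rho_dv (g : G) (i : ℕ) (v : W) (hv : Dv (orb ρ w) i v) : Dv (orb ρ w) i (ρ g v) := by
  obtain ⟨u, hu, rfl⟩ := hv
  exact ⟨ρ g u, rho_lat ρ w g u hu, by rw [map_zsmul]⟩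

theorem dv_sub {X : Finset W} {i : ℕ} {u v : W} (hu : Dv X i u) (hv : Dv X i v) :
    Dv X i (u - v) := by
  obtain ⟨a, ha, rfl⟩ := hu
  obtain ⟨b, hb, rfl⟩ := hv
  exact ⟨a - b, (lat X).sub_mem ha hb, by rw [smul_sub]⟩

theorem dv_neg {X : Finset W} {i : ℕ} {u : W} (hu : Dv X i u) : Dv X i (-u) := by
  obtain ⟨a, ha, rfl⟩ := hu
  exact ⟨-a, (lat X).neg_mem ha, by rw [smul_neg]⟩

theorem dv_add {X : Finset W} {i : ℕ} {u v : W} (hu : Dv X i u) (hv : Dv X i v) :
    Dv X i (u + v) := by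
  rw [← sub_neg_eq_add]
  exact dv_sub hu (dv_neg hv)

/-- the subgroup of the multiples of `2 ^ i` -/
def PG (X : Finset W) (i : ℕ) : AddSubgroup W where
  carrier := {v | Dv X i v}
  zero_mem' := ⟨0, (lat X).zero_mem, by rw [smul_zero]⟩
  add_mem' := dv_add
  neg_mem' := dv_neg

theorem energy_image [DecidableEq W] (A : Finset W) (g : G) : E[A.image (ρ g)] ≤ E[A] := by
  rw [← diff_energy, ← diff_energy]
  refine Finset.card_le_card_of_injOn
    (fun x => ((ρ g⁻¹ x.1.1, ρ g⁻¹ x.1.2), ρ g⁻¹ x.2.1, ρ g⁻¹ x.2.2)) ?_ ?_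
  · rintro ⟨⟨a, b⟩, c, d⟩ h
    simp only [Finset.mem_coe, Finset.mem_filter, Finset.mem_product, Finset.mem_image] at h ⊢
    obtain ⟨⟨⟨⟨a', ha, rfl⟩, b', hb, rfl⟩, ⟨c', hc, rfl⟩, d', hd, rfl⟩, h⟩ := h
    simp only [rho_inv]
    refine ⟨⟨⟨ha, hb⟩, hc, hd⟩, ?_⟩
    rw [← map_sub, ← map_sub] at h
    exact rho_inj ρ g h
  · rintro ⟨⟨a, b⟩, c, d⟩ _ ⟨⟨a', b'⟩, c', d'⟩ _ h
    simp only [Prod.mk.injEq] at h
    obtain ⟨⟨h1, h2⟩, h3, h4⟩ := h
    rw [rho_inj ρ _ h1, rho_inj ρ _ h2, rho_inj ρ _ h3, rho_inj ρ _ h4]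

theorem energy_small [DecidableEq W] (q : ℕ) (hw : w ≠ 0)
    (h2 : ∀ u : Fin 2 → G, LinearIndependent ℚ (fun i => ρ (u i) w) →
      osz ρ w ^ 2 ≤ q * tsz ρ w u)
    (hn : ∃ g h : G, ¬ SameL ρ w g h) (hE : osz ρ w ^ 3 ≤ q ^ 2 * E[orb ρ w]) :
    osz ρ w ≤ q * (2 * PB (q ^ 6) ^ 4) := by
  classical
  set X := orb ρ w with hX
  have hcX : #X = osz ρ w := card_orb ρ w
  obtain ⟨i, ⟨a₀, ha₀, b₀, hb₀, hne1, hne2, hdv⟩, hmax⟩ := exists_max X (by
    obtain ⟨g, h, hgh⟩ := hn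
    refine ⟨ρ g w, (mem_orb ρ w _).2 ⟨g, rfl⟩, ρ h w, (mem_orb ρ w _).2 ⟨h, rfl⟩, ?_, ?_⟩
    · intro h0
      exact hgh (Or.inl h0)
    · intro h0
      exact hgh (Or.inr h0))
  obtain ⟨g₀, rfl⟩ := (mem_orb ρ w _).1 ha₀
  obtain ⟨h₀, rfl⟩ := (mem_orb ρ w _).1 hb₀
  set cl : W → W ⧸ PG X i := QuotientAddGroup.mk with hcl
  have hcle : ∀ a b, cl a = cl b ↔ Dv X i (a - b) := by
    intro a b
    rw [hcl, QuotientAddGroup.eq]
    constructor
    · intro h
      have h' := dv_neg (X := X) (i := i) h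
      rwa [neg_add, neg_neg, ← sub_eq_add_neg] at h'
    · intro h
      have h' := dv_neg h
      rw [neg_sub] at h'
      change Dv X i (-a + b)
      rwa [neg_add_eq_sub]
  set X0 := X.filter (fun x => cl x = cl w) with hX0
  have hwX : w ∈ X := (mem_orb ρ w w).2 ⟨1, by rw [map_one]; rfl⟩
  -- all classes are images of `X0`
  have hclass : ∀ a ∈ X, ∃ g : G, X.filter (fun x => cl x = cl a) = X0.image (ρ g) := by
    intro a ha
    obtain ⟨g, rfl⟩ := (mem_orb ρ w a).1 ha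
    refine ⟨g, ?_⟩
    ext x
    rw [Finset.mem_filter, Finset.mem_image]
    constructor
    · rintro ⟨h1, h3⟩
      refine ⟨ρ g⁻¹ x, ?_, rho_inv' ρ g x⟩
      rw [hX0, Finset.mem_filter]
      refine ⟨rho_mem_orb ρ w _ h1, ?_⟩
      rw [hcle] at h3 ⊢
      have h4 := rho_dv ρ w g⁻¹ i _ h3
      rwa [map_sub, rho_inv] at h4
    · rintro ⟨y, hy, rfl⟩
      rw [hX0, Finset.mem_filter] at hy
      refine ⟨rho_mem_orb ρ w _ hy.1, ?_⟩
      rw [hcle, ← map_sub]
      exact rho_dv ρ w g i _ ((hcle _ _).1 hy.2)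
  have hcard : ∀ a ∈ X, #(X.filter fun x => cl x = cl a) = #X0 := by
    intro a ha
    obtain ⟨g, hg⟩ := hclass a ha
    rw [hg, Finset.card_image_of_injective _ (rho_inj ρ g)]
  have hX0ne : X0.Nonempty := ⟨w, by rw [hX0, Finset.mem_filter]; exact ⟨hwX, rfl⟩⟩
  have hnpos : 0 < osz ρ w := by
    rw [← hcX]
    exact Finset.card_pos.2 ⟨w, hwX⟩
  -- pairs
  have hpair : osz ρ w ≤ q * #X0 := by
    have hns : ¬ SameL ρ w g₀ h₀ := by
      rintro (h | h)
      · exact hne1 h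
      · exact hne2 h
    have h3 := h2 ![g₀, h₀] (indep_pair ρ w hw g₀ h₀ hns)
    have h4 : tsz ρ w ![g₀, h₀] ≤ osz ρ w * #X0 := by
      set T : Finset (W × W) := (X ×ˢ X).filter (fun p => cl p.2 = cl p.1) with hT
      have h5 : #T = osz ρ w * #X0 := by
        rw [Finset.card_eq_sum_card_fiberwise (f := fun p : W × W => p.1) (t := X)]
        · have h6 : ∀ a ∈ X, #{p ∈ T | p.1 = a} = #X0 := by
            intro a ha
            rw [← hcard a ha]
            refine Finset.card_nbij' (fun p => p.2) (fun x => (a, x)) ?_ ?_ ?_ ?_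
            · rintro ⟨p1, p2⟩ hp
              rw [hT] at hp
              simp only [Finset.mem_coe, Finset.mem_filter, Finset.mem_product] at hp ⊢
              exact ⟨hp.1.1.2, by rw [← hp.2]; exact hp.1.2⟩
            · intro x hx
              rw [hT]
              simp only [Finset.mem_coe, Finset.mem_filter, Finset.mem_product] at hx ⊢
              exact ⟨⟨⟨ha, hx.1⟩, hx.2⟩, trivial⟩
            · rintro ⟨p1, p2⟩ hp
              simp only [Finset.mem_coe, Finset.mem_filter] at hp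
              exact Prod.ext hp.2.symm rfl
            · intro x _
              rfl
          rw [Finset.sum_congr rfl h6, Finset.sum_const, smul_eq_mul, hcX]
        · intro p hp
          rw [hT] at hp
          simp only [Finset.mem_coe, Finset.mem_filter, Finset.mem_product] at hp ⊢
          exact hp.1.1
      rw [← h5, tsz, Nat.card_coe_set_eq]
      have h7 : (Set.range fun x : G => fun j : Fin 2 => ρ (x * (![g₀, h₀] : Fin 2 → G) j) w) ⊆
          (fun p : W × W => (![p.1, p.2] : Fin 2 → W)) '' (T : Set (W × W)) := by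
        rintro _ ⟨x, rfl⟩
        refine ⟨(ρ (x * g₀) w, ρ (x * h₀) w), ?_, ?_⟩
        · rw [hT]
          simp only [Finset.mem_coe, Finset.mem_filter, Finset.mem_product]
          refine ⟨⟨(mem_orb ρ w _).2 ⟨_, rfl⟩, (mem_orb ρ w _).2 ⟨_, rfl⟩⟩, ?_⟩
          rw [hcle, rho_mul, rho_mul, ← map_sub]
          apply rho_dv
          have h8 := dv_neg hdv
          rwa [neg_sub] at h8
        · funext j
          fin_cases j <;> rfl
      refine (Set.ncard_le_ncard h7 (Set.Finite.image _ T.finite_toSet)).trans ?_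
      refine (Set.ncard_image_le T.finite_toSet).trans ?_
      rw [Set.ncard_coe_finset]
    have h9 : osz ρ w * osz ρ w ≤ osz ρ w * (q * #X0) := by
      calc osz ρ w * osz ρ w = osz ρ w ^ 2 := (sq _).symm
        _ ≤ q * tsz ρ w ![g₀, h₀] := h3
        _ ≤ q * (osz ρ w * #X0) := Nat.mul_le_mul_left _ h4
        _ = osz ρ w * (q * #X0) := by ring
    exact Nat.le_of_mul_le_mul_left h9 hnpos
  -- number of classes
  have hk : #(X.image cl) ≤ q := by
    have h3 : #X = #(X.image cl) * #X0 := by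
      rw [Finset.card_eq_sum_card_image cl X]
      rw [Finset.sum_congr rfl (g := fun _ => #X0)]
      · rw [Finset.sum_const, smul_eq_mul]
      · intro c hc
        obtain ⟨a, ha, rfl⟩ := Finset.mem_image.1 hc
        exact hcard a ha
    rw [← hcX, h3] at hpair
    exact Nat.le_of_mul_le_mul_right hpair hX0ne.card_pos
  have hEX : E[X] ≤ q ^ 4 * E[X0] := by
    refine energy_le_classes X cl E[X0] q hk ?_
    intro c hc
    obtain ⟨a, ha, rfl⟩ := Finset.mem_image.1 hc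
    obtain ⟨g, hg⟩ := hclass a ha
    rw [hg]
    exact energy_image ρ X0 g
  have hE0 : #X0 ^ 3 ≤ q ^ 6 * E[X0] := by
    have h3 : #X0 ≤ osz ρ w := by
      rw [← hcX]
      exact Finset.card_le_card (Finset.filter_subset _ _)
    calc #X0 ^ 3 ≤ osz ρ w ^ 3 := Nat.pow_le_pow_left h3 3
      _ ≤ q ^ 2 * E[X] := hE
      _ ≤ q ^ 2 * (q ^ 4 * E[X0]) := Nat.mul_le_mul_left _ hEX
      _ = q ^ 6 * E[X0] := by ring
  have hinj : ∀ b₁ ∈ X0, ∀ b₂ ∈ X0, ∀ b₁' ∈ X0, ∀ b₂' ∈ X0,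
      b₁ + (b₂ + b₂) = b₁' + (b₂' + b₂') → b₁' = b₁ ∨ b₁' = -b₁ := by
    intro b₁ hb₁ b₂ hb₂ b₁' hb₁' b₂' hb₂' h
    rw [hX0, Finset.mem_filter] at hb₁ hb₂ hb₁' hb₂'
    have h3 : Dv X i (b₂ - b₂') := (hcle _ _).1 (hb₂.2.trans hb₂'.2.symm)
    obtain ⟨u, hu, huv⟩ := h3
    refine hmax b₁' hb₁'.1 b₁ hb₁.1 ⟨u, hu, ?_⟩
    have h4 : b₁' - b₁ = (b₂ - b₂') + (b₂ - b₂') := by
      have h5 : b₁' - b₁ = (b₁' + (b₂' + b₂')) - (b₂' + b₂') - b₁ := by abel
      rw [h5, ← h]
      abel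
    rw [h4, ← huv, pow_succ, mul_comm, mul_smul, two_smul]
  have hfin := small_class X0 hX0ne (q ^ 6) hE0 hinj
  exact hpair.trans (Nat.mul_le_mul_left _ hfin)

end Pool.Agent.Lib.MP_7ab245_nt.Solv.RR
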