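import Mathlib
import Pool.Agent.Lib.MP_7ab245_nt.Solv.RR.Cls

/-! Vectors of an orbit which satisfies Theorem B have no linear relations. -/

set_option autoImplicit false

namespace Pool.Agent.Lib.MP_7ab245_nt.Solv.RR

open Finset SX
open scoped Combinatorics.Additive

variable {G W : Type} [Group G] [Finite G] [AddCommGroup W] [Module ℚ W]
  (ρ : Representation ℚ G W) (w : W)

/-- a relation between `s + 3` vectors of the orbit, of which the last `s + 2` have a large orbit,
gives large energy -/
theorem energy_of_circuit [DecidableEq W] (q s : ℕ) (hnpos : 0 < osz ρ w)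
    (u : Fin (s + 3) → G) (c : Fin (s + 3) → ℚ) (hc : ∀ i, c i ≠ 0)
    (hrel : ∑ i, c i • ρ (u i) w = 0)
    (hT : osz ρ w ^ (s + 2) ≤ q * tsz ρ w (fun i : Fin (s + 2) => u i.succ)) :
    osz ρ w ^ 3 ≤ q ^ 2 * E[orb ρ w] := by
  classical
  set X := orb ρ w with hX
  set n := osz ρ w with hn
  have hcX : #X = n := card_orb ρ w
  set T : Finset (Fin (s + 2) → W) :=
    (Set.finite_range fun x : G => fun i : Fin (s + 2) => ρ (x * u i.succ) w).toFinset with hTdef
  have hTc : #T = tsz ρ w (fun i : Fin (s + 2) => u i.succ) := by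
    rw [hTdef, tsz, Nat.card_coe_set_eq, Set.ncard_eq_toFinset_card _ (Set.finite_range _)]
  have hmT : ∀ y, y ∈ T ↔ ∃ x : G, (fun i : Fin (s + 2) => ρ (x * u i.succ) w) = y := by
    intro y
    rw [hTdef, Set.Finite.mem_toFinset, Set.mem_range]
  set B : Finset (Fin s → W) := Fintype.piFinset fun _ => X with hB
  have hBc : #B = n ^ s := by
    rw [hB, Fintype.card_piFinset, Finset.prod_const, Finset.card_univ, Fintype.card_fin, hcX]
  set π : (Fin (s + 2) → W) → (Fin s → W) := fun y j => y j.succ.succ with hπ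
  have hmaps : ∀ y ∈ T, π y ∈ B := by
    intro y hy
    obtain ⟨x, rfl⟩ := (hmT y).1 hy
    rw [hB, Fintype.mem_piFinset]
    intro j
    exact (mem_orb ρ w _).2 ⟨_, rfl⟩
  have hBne : B.Nonempty := by
    rw [← Finset.card_pos, hBc]
    positivity
  have hsum : ∑ _z ∈ B, n ^ 2 ≤ ∑ z ∈ B, q * #{y ∈ T | π y = z} := by
    rw [Finset.sum_const, smul_eq_mul, hBc, ← Finset.mul_sum,
      ← Finset.card_eq_sum_card_fiberwise (fun y hy => hmaps y hy), hTc, ← pow_add]
    exact hT
  obtain ⟨z, _, hz⟩ := Finset.exists_le_of_sum_le hBne hsum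
  set uz : W := -∑ j : Fin s, c j.succ.succ.succ • z j with huz
  set y0 : (Fin (s + 2) → W) → W := fun y => -((c 0)⁻¹ • ∑ i : Fin (s + 2), c i.succ • y i)
    with hy0
  have hsol : #{y ∈ T | π y = z} ≤
      #{y ∈ X ×ˢ X ×ˢ X | c 0 • y.1 + c 1 • y.2.1 + c 2 • y.2.2 = uz} := by
    refine Finset.card_le_card_of_injOn (fun y => (y0 y, y 0, y 1)) ?_ ?_
    · intro y hy
      rw [Finset.mem_coe, Finset.mem_filter] at hy
      obtain ⟨hyT, hyz⟩ := hy
      rw [Finset.mem_coe, Finset.mem_filter, Finset.mem_product, Finset.mem_product]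
      have hexp : ∑ i : Fin (s + 2), c i.succ • y i =
          c 1 • y 0 + (c 2 • y 1 + ∑ j : Fin s, c j.succ.succ.succ • z j) := by
        rw [Fin.sum_univ_succ, Fin.sum_univ_succ, ← hyz]
        rfl
      obtain ⟨x, hx⟩ := (hmT y).1 hyT
      refine ⟨⟨?_, ?_, ?_⟩, ?_⟩
      · change y0 y ∈ X
        have h1 : y0 y = ρ (x * u 0) w := by
          have h2 := congrArg (ρ x) hrel
          rw [map_sum, map_zero, Fin.sum_univ_succ] at h2
          simp only [map_smul] at h2
          have h3 : ∑ i : Fin (s + 2), c i.succ • y i =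
              ∑ i : Fin (s + 2), c i.succ • ρ x (ρ (u i.succ) w) := by
            refine Finset.sum_congr rfl fun i _ => ?_
            rw [← hx]
            change c i.succ • ρ (x * u i.succ) w = _
            rw [rho_mul]
          rw [hy0]
          change -((c 0)⁻¹ • ∑ i : Fin (s + 2), c i.succ • y i) = _
          rw [h3, eq_neg_of_add_eq_zero_right h2, smul_neg, neg_neg, smul_smul,
            inv_mul_cancel₀ (hc 0), one_smul, rho_mul]
        rw [h1]
        exact (mem_orb ρ w _).2 ⟨_, rfl⟩
      · change y 0 ∈ X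
        rw [← hx]
        exact (mem_orb ρ w _).2 ⟨_, rfl⟩
      · change y 1 ∈ X
        rw [← hx]
        exact (mem_orb ρ w _).2 ⟨_, rfl⟩
      · change c 0 • y0 y + c 1 • y 0 + c 2 • y 1 = uz
        rw [hy0]
        change c 0 • -((c 0)⁻¹ • ∑ i : Fin (s + 2), c i.succ • y i) + c 1 • y 0 + c 2 • y 1 = uz
        rw [smul_neg, smul_smul, mul_inv_cancel₀ (hc 0), one_smul, hexp, huz]
        abel
    · intro y hy y' hy' h
      rw [Finset.mem_coe, Finset.mem_filter] at hy hy'
      have h1 : y 0 = y' 0 := congrArg (fun p : W × W × W => p.2.1) h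
      have h2 : y 1 = y' 1 := congrArg (fun p : W × W × W => p.2.2) h
      have h3 : π y = π y' := hy.2.trans hy'.2.symm
      funext i
      refine Fin.cases h1 (fun j => ?_) i
      refine Fin.cases h2 (fun k => ?_) j
      exact congrFun h3 k
  have hen := energy_of_solutions X (c 0) (c 1) (c 2) (hc 0) (hc 1) (hc 2) uz
  rw [hcX] at hen
  set S := #{y ∈ X ×ˢ X ×ˢ X | c 0 • y.1 + c 1 • y.2.1 + c 2 • y.2.2 = uz} with hS
  have h1 : n ^ 2 ≤ q * S := hz.trans (Nat.mul_le_mul_left _ hsol)
  have h2 : n * n ^ 3 ≤ n * (q ^ 2 * E[X]) := by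
    calc n * n ^ 3 = n ^ 2 * n ^ 2 := by ring
      _ ≤ (q * S) * (q * S) := Nat.mul_le_mul h1 h1
      _ = q ^ 2 * S ^ 2 := by ring
      _ ≤ q ^ 2 * (n * E[X]) := Nat.mul_le_mul_left _ hen
      _ = n * (q ^ 2 * E[X]) := by ring
  exact Nat.le_of_mul_le_mul_left h2 hnpos

/-- Theorem R in group form. -/
theorem indep_all (R q : ℕ) (hR : 2 ≤ R) (hw : w ≠ 0)
    (hOB : ∀ r, 1 ≤ r → r ≤ R → ∀ u : Fin r → G, LinearIndependent ℚ (fun i => ρ (u i) w) →
      osz ρ w ^ r ≤ q * tsz ρ w u)
    (hbig : q * (2 * PB (q ^ 6) ^ 4) < osz ρ w) (r : ℕ) (hr : r ≤ R + 1) (u : Fin r → G)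
    (hu : ∀ i j, i ≠ j → ¬ SameL ρ w (u i) (u j)) :
    LinearIndependent ℚ (fun i => ρ (u i) w) := by
  classical
  have hnpos : 0 < osz ρ w := by omega
  induction r with
  | zero => exact linearIndependent_empty_type
  | succ r ih =>
    match r, ih, hr, u, hu with
    | 0, _, _, u, _ =>
      rw [Fintype.linearIndependent_iff]
      intro c hc i
      change ∑ i : Fin 1, c i • ρ (u i) w = 0 at hc
      rw [Fin.sum_univ_one] at hc
      rcases smul_eq_zero.1 hc with h | h
      · have hi : i = 0 := Subsingleton.elim (α := Fin 1) _ _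
        rw [hi]
        exact h
      · exact absurd (rho_inj ρ _ (h.trans (map_zero _).symm)) hw
    | 1, _, _, u, hu =>
      have h1 := indep_pair ρ w hw (u 0) (u 1) (hu 0 1 (by decide))
      have h2 : (fun i => ρ (u i) w) = (fun i => ρ ((![u 0, u 1] : Fin 2 → G) i) w) := by
        funext i
        fin_cases i <;> rfl
      rw [h2]
      exact h1
    | s + 2, ih, hr, u, hu =>
      by_contra hdep
      rw [Fintype.not_linearIndependent_iff] at hdep
      obtain ⟨c, hrel, j, hj⟩ := hdep
      have hsub : ∀ k : Fin (s + 3), LinearIndependent ℚ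
          (fun i => ρ (u (k.succAbove i)) w) := by
        intro k
        exact ih (by omega) (fun i => u (k.succAbove i)) (fun a b hab =>
          hu _ _ (fun h => hab (Fin.succAbove_right_injective h)))
      have hc : ∀ k, c k ≠ 0 := by
        intro k hk
        rw [Fin.sum_univ_succAbove _ k, hk, zero_smul, zero_add] at hrel
        have h1 := Fintype.linearIndependent_iff.1 (hsub k) (fun i => c (k.succAbove i)) hrel
        rcases eq_or_ne j k with h2 | h2
        · exact hj (h2 ▸ hk)
        · obtain ⟨i, hi⟩ := Fin.exists_succAbove_eq h2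
          rw [← hi] at hj
          exact hj (h1 i)
      have h0 : LinearIndependent ℚ (fun i : Fin (s + 2) => ρ (u i.succ) w) := by
        have := hsub 0
        simpa only [Fin.succAbove_zero] using this
      have hE := energy_of_circuit ρ w q s hnpos u c hc hrel
        (hOB (s + 2) (by omega) (by omega) (fun i => u i.succ) h0)
      have hfin := energy_small ρ w q hw (fun v hv => hOB 2 (by norm_num) hR v hv)
        ⟨u 0, u 1, hu 0 1 (by
          intro h
          have := congrArg Fin.val h
          simp at this)⟩ hE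
      omega

end Pool.Agent.Lib.MP_7ab245_nt.Solv.RR
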