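import Mathlib
import Pool.Agent.Lib.MP_7ab245_nt.Solv.RR.Small

/-! Choice of the parameter `q`. -/

set_option autoImplicit false

namespace Pool.Agent.Lib.MP_7ab245_nt.Solv.RR

theorem PB_le (q : ℕ) (hq : 1 ≤ q) : PB (q ^ 6) ≤ 2 ^ 95 * q ^ 216 := by
  unfold PB
  have h1 : (128 * (q ^ 6) ^ 2 * (4096 * (2 * q ^ 6) ^ 8) ^ 2) ^ 2 = 2 ^ 94 * q ^ 216 := by
    ring
  have h2 : 16 * q ^ 6 ≤ 2 ^ 94 * q ^ 216 := by
    have h3 : q ^ 6 ≤ q ^ 216 := Nat.pow_le_pow_right hq (by norm_num)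
    calc 16 * q ^ 6 ≤ 16 * q ^ 216 := Nat.mul_le_mul_left _ h3
      _ ≤ 2 ^ 94 * q ^ 216 := Nat.mul_le_mul_right _ (by norm_num)
  rw [h1]
  calc 2 ^ 94 * q ^ 216 + 16 * q ^ 6 ≤ 2 ^ 94 * q ^ 216 + 2 ^ 94 * q ^ 216 :=
        Nat.add_le_add_left h2 _
    _ = 2 ^ 95 * q ^ 216 := by ring

theorem final_le (q : ℕ) (hq : 1 ≤ q) : q * (2 * PB (q ^ 6) ^ 4) ≤ 2 ^ 381 * q ^ 865 := by
  have h1 := Nat.pow_le_pow_left (PB_le q hq) 4
  have h2 : ∀ t : ℕ, q * (t * (t ^ 95 * q ^ 216) ^ 4) = t ^ 381 * q ^ 865 := fun t => by ring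
  calc q * (2 * PB (q ^ 6) ^ 4) ≤ q * (2 * (2 ^ 95 * q ^ 216) ^ 4) :=
        Nat.mul_le_mul_left _ (Nat.mul_le_mul_left _ h1)
    _ = 2 ^ 381 * q ^ 865 := h2 2

theorem exists_q : ∃ n₀ : ℕ, ∀ n, n₀ ≤ n → ∃ q : ℕ, 1 ≤ q ∧ n ≤ q ^ 900 ∧
    q * (2 * PB (q ^ 6) ^ 4) < n := by
  obtain ⟨A, hA⟩ : ∃ A : ℕ, A = 2 ^ 36 := ⟨_, rfl⟩
  refine ⟨A ^ 900 + 1, fun n hn => ?_⟩
  classical
  have hex : ∃ q : ℕ, n ≤ q ^ 900 := ⟨n, Nat.le_self_pow (by norm_num) n⟩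
  obtain ⟨q, hq⟩ : ∃ q, q = Nat.find hex := ⟨_, rfl⟩
  have h1 : n ≤ q ^ 900 := hq ▸ Nat.find_spec hex
  have h2 : A < q := by
    by_contra hcon
    push Not at hcon
    have := Nat.pow_le_pow_left hcon 900
    omega
  have h3 : (q - 1) ^ 900 < n := by
    have h4 := Nat.find_min hex (m := q - 1) (by omega)
    omega
  refine ⟨q, by omega, h1, ?_⟩
  refine lt_of_le_of_lt ((final_le q (by omega)).trans ?_) h3
  obtain ⟨p, rfl⟩ : ∃ p, q = p + 1 := ⟨q - 1, by omega⟩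
  have hp : A ≤ p := by omega
  have hp1 : 1 ≤ p := by
    rw [hA] at hp
    exact le_trans (by norm_num) hp
  rw [Nat.add_sub_cancel]
  have h5 : (p + 1) ^ 865 ≤ (2 * p) ^ 865 := Nat.pow_le_pow_left (by omega) 865
  have h6 : 2 ^ 1246 ≤ p ^ 35 := by
    calc 2 ^ 1246 ≤ 2 ^ 1260 := Nat.pow_le_pow_right (by norm_num) (by norm_num)
      _ = (2 ^ 36) ^ 35 := by rw [← pow_mul]
      _ ≤ p ^ 35 := Nat.pow_le_pow_left (hA ▸ hp) 35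
  calc 2 ^ 381 * (p + 1) ^ 865 ≤ 2 ^ 381 * (2 * p) ^ 865 := Nat.mul_le_mul_left _ h5
    _ = 2 ^ 1246 * p ^ 865 := by
        rw [mul_pow, ← mul_assoc, ← pow_add]
    _ ≤ p ^ 35 * p ^ 865 := Nat.mul_le_mul_right _ h6
    _ = p ^ 900 := by rw [← pow_add]

theorem pow_le_of_hyp (n N q r D : ℕ) (hr : 1 ≤ r) (hD : 1 ≤ D) (hq : 1 ≤ q) (hn : n ≤ q ^ 900)
    (h : n ^ (r * (900 * D) - 1) < N ^ (900 * D)) : n ^ r ≤ q * N := by
  have h0 : 900 * D ≠ 0 := by omega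
  have h1 : 1 ≤ r * (900 * D) := Nat.mul_pos hr (by omega)
  have h2 : (n ^ r) ^ (900 * D) ≤ (q * N) ^ (900 * D) := by
    calc (n ^ r) ^ (900 * D) = n ^ (r * (900 * D)) := by rw [← pow_mul]
      _ = n * n ^ (r * (900 * D) - 1) := by
          rw [← pow_succ']
          congr 1
          omega
      _ ≤ q ^ 900 * N ^ (900 * D) := Nat.mul_le_mul hn h.le
      _ ≤ q ^ (900 * D) * N ^ (900 * D) := by
          refine Nat.mul_le_mul_right _ (Nat.pow_le_pow_right hq ?_)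
          omega
      _ = (q * N) ^ (900 * D) := by rw [mul_pow]
  exact (Nat.pow_le_pow_iff_left h0).1 h2

theorem root_hyp (n N r D : ℕ) (hr : 1 ≤ r) (hD : 1 ≤ D) (hn : 1 ≤ n)
    (h : n ^ (r * (900 * D) - 1) < N ^ (900 * D)) : n ^ (r * D - 1) < N ^ D := by
  have h1 : 1 ≤ r * D := Nat.mul_pos hr hD
  refine lt_of_pow_lt_pow_left₀ 900 (Nat.zero_le _) ?_
  calc (n ^ (r * D - 1)) ^ 900 = n ^ ((r * D - 1) * 900) := by rw [← pow_mul]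
    _ ≤ n ^ (r * (900 * D) - 1) := by
        refine Nat.pow_le_pow_right hn ?_
        have h2 : r * (900 * D) = r * D * 900 := by ring
        rw [h2]
        omega
    _ < N ^ (900 * D) := h
    _ = (N ^ D) ^ 900 := by rw [← pow_mul, mul_comm]

end Pool.Agent.Lib.MP_7ab245_nt.Solv.RR
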