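import Mathlib
import Pool.Agent.Lib.MP_7ab245_nt.Solv.RR.Circ
import Pool.Agent.Lib.MP_7ab245_nt.Solv.RR.Num

/-! Theorem R in group form: if Theorem B holds for independent tuples of vectors of an orbit, then
tuples of vectors on different lines are independent, and Theorem B holds for them. -/

set_option autoImplicit false

namespace Pool.Agent.Lib.MP_7ab245_nt.Solv.RR

open Finset SX

/-- Vectors on different lines are linearly independent. -/
theorem hypI (R : ℕ) : ∃ n₀ : ℕ, ∀ {G W : Type} [Group G] [Finite G] [AddCommGroup W]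
    [Module ℚ W] (ρ : Representation ℚ G W) (w : W), n₀ ≤ osz ρ w →
    ∀ D : ℕ, 1 ≤ D → HypB ρ w (R + 2) (900 * D) → ∀ r, r ≤ R → ∀ u : Fin r → G,
      (∀ i j, i ≠ j → ¬ SameL ρ w (u i) (u j)) → LinearIndependent ℚ (fun i => ρ (u i) w) := by
  obtain ⟨n₀, hn₀⟩ := exists_q
  refine ⟨n₀ + 2, ?_⟩
  intro G W _ _ _ _ ρ w hn D hD hB r hr u hu
  obtain ⟨q, hq, hnq, hbig⟩ := hn₀ (osz ρ w) (by omega)
  have hw : w ≠ 0 := by
    rintro rfl
    have h1 : osz ρ (0 : W) ≤ 1 := by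
      rw [osz]
      have h2 : (Set.range fun x : G => ρ x (0 : W)) = {0} := by
        ext v
        rw [Set.mem_range, Set.mem_singleton_iff]
        constructor
        · rintro ⟨x, rfl⟩
          exact map_zero _
        · rintro rfl
          exact ⟨1, map_zero _⟩
      rw [h2, Nat.card_unique]
    omega
  refine indep_all ρ w (R + 2) q (by omega) hw ?_ hbig r (by omega) u hu
  intro s hs1 hsR v hv
  exact pow_le_of_hyp _ _ q s D hs1 hD hq hnq (hB s hs1 hsR v hv)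

/-- Theorem B for tuples of vectors on different lines. -/
theorem hypL (R D : ℕ) (hD : 1 ≤ D) : ∃ R1 D1 n₀ : ℕ, 1 ≤ D1 ∧ ∀ {G W : Type} [Group G] [Finite G]
    [AddCommGroup W] [Module ℚ W] (ρ : Representation ℚ G W) (w : W), n₀ ≤ osz ρ w →
    HypB ρ w R1 D1 → ∀ r, 1 ≤ r → r ≤ R → ∀ u : Fin r → G,
      (∀ i j, i ≠ j → ¬ SameL ρ w (u i) (u j)) →
      LinearIndependent ℚ (fun i => ρ (u i) w) ∧ osz ρ w ^ (r * D - 1) < tsz ρ w u ^ D := by
  obtain ⟨n₀, hn₀⟩ := hypI R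
  refine ⟨R + 2, 900 * D, n₀ + 1, by omega, ?_⟩
  intro G W _ _ _ _ ρ w hn hB r hr1 hr u hu
  have h1 := hn₀ ρ w (by omega) D hD hB r hr u hu
  exact ⟨h1, root_hyp _ _ r D hr1 hD (by omega) (hB r hr1 (by omega) u h1)⟩

end Pool.Agent.Lib.MP_7ab245_nt.Solv.RR
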