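import Mathlib
import Pool.Agent.Lib.MP_7ab245_nt.Solv.F.Delta
import Pool.Agent.Lib.MP_7ab245_nt.Solv.F.Inst
import Pool.Agent.Lib.MP_7ab245_nt.Solv.RR.HypL
import Pool.Agent.Lib.MP_7ab245_nt.Solv.FM.TheoremBQ

/-! Conjugates of small Mahler measure: pairwise multiplicatively independent conjugates are
multiplicatively independent. -/

set_option autoImplicit false

open Polynomial

namespace Pool.Agent.Lib.MP_7ab245_nt.Solv.RR

/-- A unit of Mahler measure at most `2 ^ t`, no two different conjugates of which have a ratio that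
is a root of unity. -/
structure Nice (Ω : Type) [Field Ω] [NumberField Ω] (t : ℕ) (g : ℤ[X]) : Prop where
  monic : g.Monic
  irr : Irreducible g
  splits : (g.map (algebraMap ℤ Ω)).Splits
  c0 : |g.coeff 0| = 1
  le : M g ≤ 2 ^ t
  nt : ∀ x y : Ω, aeval x g = 0 → aeval y g = 0 → ∀ k : ℕ, 0 < k → x ^ k = y ^ k → x = y

variable {Ω : Type} [Field Ω] [NumberField Ω] {k₀ : ℕ} {g : ℤ[X]}

theorem Nice.ne_zero (hg : Nice Ω k₀ g) (x : Ω) (hx : aeval x g = 0) : x ≠ 0 := by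
  rintro rfl
  have h1 := Polynomial.coeff_zero_eq_aeval_zero' (A := Ω) g
  rw [hx] at h1
  have h2 : g.coeff 0 = 0 := by
    rw [algebraMap_int_eq, eq_intCast] at h1
    exact_mod_cast h1
  have h3 := hg.c0
  rw [h2] at h3
  simp at h3

theorem Nice.int_inv (hg : Nice Ω k₀ g) (x : Ω) (hx : aeval x g = 0) : IsIntegral ℤ x⁻¹ := by
  have hx0 := hg.ne_zero x hx
  have hint : IsIntegral ℤ x := ⟨g, hg.monic, by rw [← Polynomial.aeval_def]; exact hx⟩
  have h1 : IsIntegral ℤ (aeval x g.divX) := by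
    have h2 : Algebra.adjoin ℤ {x} ≤ integralClosure ℤ Ω := by
      rw [Algebra.adjoin_le_iff, Set.singleton_subset_iff]
      exact hint
    exact h2 (Polynomial.aeval_mem_adjoin_singleton ℤ x)
  have h3 : aeval x g.divX * x + (g.coeff 0 : Ω) = 0 := by
    have h4 := congrArg (aeval x) (Polynomial.divX_mul_X_add g)
    rw [hx, map_add, map_mul, Polynomial.aeval_X, Polynomial.aeval_C, algebraMap_int_eq,
      eq_intCast] at h4
    exact h4
  rcases eq_or_eq_neg_of_abs_eq hg.c0 with h5 | h5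
  · rw [h5, Int.cast_one] at h3
    have h7 : x⁻¹ = -(aeval x g.divX) := by
      apply inv_eq_of_mul_eq_one_right
      linear_combination -h3
    rw [h7]
    exact h1.neg
  · rw [h5, Int.cast_neg, Int.cast_one] at h3
    have h7 : x⁻¹ = aeval x g.divX := by
      apply inv_eq_of_mul_eq_one_right
      linear_combination h3
    rw [h7]
    exact h1

variable [IsGalois ℚ Ω] (ι : Ω →+* ℂ)

theorem Nice.eq_of_lg (hg : Nice Ω k₀ g) (x y : Ω) (hx : aeval x g = 0) (hy : aeval y g = 0)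
    (h : lg ι y = lg ι x) : y = x := by
  have hx0 := hg.ne_zero x hx
  have hy0 := hg.ne_zero y hy
  have hyint : IsIntegral ℤ y := ⟨g, hg.monic, by rw [← Polynomial.aeval_def]; exact hy⟩
  have hxi := hg.int_inv x hx
  have h1 : lg ι (y * x⁻¹) = 0 := by
    rw [lg_mul ι y x⁻¹ hy0 (inv_ne_zero hx0), lg_inv, h, add_neg_cancel]
  obtain ⟨k, hk, hk1⟩ := torsion_of_lg_eq_zero ι (y * x⁻¹)
    (mul_ne_zero hy0 (inv_ne_zero hx0)) (hyint.mul hxi) h1
  rw [mul_pow, inv_pow, mul_inv_eq_one₀ (pow_ne_zero k hx0)] at hk1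
  exact hg.nt y x hy hx k hk hk1

theorem Nice.tors_of_neg (hg : Nice Ω k₀ g) (x y : Ω) (hx : aeval x g = 0) (hy : aeval y g = 0)
    (h : lg ι y = -lg ι x) : ∃ k : ℕ, 0 < k ∧ (y * x) ^ k = 1 := by
  have hx0 := hg.ne_zero x hx
  have hy0 := hg.ne_zero y hy
  have hyint : IsIntegral ℤ y := ⟨g, hg.monic, by rw [← Polynomial.aeval_def]; exact hy⟩
  have hxint : IsIntegral ℤ x := ⟨g, hg.monic, by rw [← Polynomial.aeval_def]; exact hx⟩
  refine torsion_of_lg_eq_zero ι (y * x) (mul_ne_zero hy0 hx0) (hyint.mul hxint) ?_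
  rw [lg_mul ι y x hy0 hx0, h, neg_add_cancel]

private theorem card_range_congr2 {α β γ : Type} (f : α → β) (h : α → γ)
    (hfh : ∀ a b, f a = f b ↔ h a = h b) : Nat.card (Set.range f) = Nat.card (Set.range h) := by
  have hs : Setoid.ker f = Setoid.ker h := by
    ext a b
    exact hfh a b
  have e1 : Quotient (Setoid.ker f) ≃ Set.range f := Setoid.quotientKerEquivRange f
  have e2 : Quotient (Setoid.ker h) ≃ Set.range h := Setoid.quotientKerEquivRange h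
  rw [← Nat.card_congr e1, ← Nat.card_congr e2, hs]

theorem Nice.root_aut (x : Ω) (hx : aeval x g = 0) (s : Ω ≃ₐ[ℚ] Ω) : aeval (s x) g = 0 := by
  rw [aeval_aut, hx, map_zero]

theorem Nice.lg_iff (hg : Nice Ω k₀ g) (x : Ω) (hx : aeval x g = 0) (s t : Ω ≃ₐ[ℚ] Ω) :
    lg ι (s x) = lg ι (t x) ↔ s x = t x := by
  constructor
  · intro h
    exact hg.eq_of_lg ι (t x) (s x) (Nice.root_aut x hx t) (Nice.root_aut x hx s) h
  · intro h
    rw [h]

theorem Nice.tsz_eq (hg : Nice Ω k₀ g) (x : Ω) (hx : aeval x g = 0) {r : ℕ}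
    (t : Fin r → (Ω ≃ₐ[ℚ] Ω)) : SX.tsz (rep (Ω ≃ₐ[ℚ] Ω)) (lg ι x) t =
      Module.finrank ℚ (IntermediateField.adjoin ℚ (Set.range fun i => t i x)) := by
  rw [← card_range_eq_finrank, SX.tsz]
  apply card_range_congr2
  intro a b
  constructor
  · intro h
    funext i
    have h1 := congrFun h i
    simp only [rep_lg] at h1
    exact (hg.lg_iff ι x hx (a * t i) (b * t i)).1 h1
  · intro h
    funext i
    have h1 : (a * t i) x = (b * t i) x := congrFun h i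
    simp only [rep_lg]
    exact (hg.lg_iff ι x hx (a * t i) (b * t i)).2 h1

theorem Nice.osz_eq (hg : Nice Ω k₀ g) (x : Ω) (hx : aeval x g = 0) :
    SX.osz (rep (Ω ≃ₐ[ℚ] Ω)) (lg ι x) = g.natDegree := by
  rw [← card_orbit_eq_natDegree g hg.monic hg.irr x hx, SX.osz]
  apply card_range_congr2
  intro a b
  rw [rep_lg, rep_lg]
  exact hg.lg_iff ι x hx a b

theorem pow_le_of {t L L' n : ℕ} (h : L ≤ L') (ht : t ^ L' ≤ n) (hn : 1 ≤ n) : t ^ L ≤ n := by
  rcases Nat.eq_zero_or_pos t with h0 | h0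
  · subst h0
    rcases Nat.eq_zero_or_pos L with h1 | h1
    · rw [h1, pow_zero]
      exact hn
    · rw [zero_pow h1.ne']
      exact Nat.zero_le _
  · exact (Nat.pow_le_pow_right h0 h).trans ht

/-- Theorem B as the hypothesis of the group theoretic part. -/
theorem hypB_nice (R D : ℕ) (hD : 1 ≤ D) : ∃ L n₀ : ℕ, ∀ (Ω : Type) [Field Ω] [NumberField Ω]
    [IsGalois ℚ Ω] (ι : Ω →+* ℂ) (t : ℕ) (g : ℤ[X]), Nice Ω t g → t ^ L ≤ g.natDegree →
    n₀ ≤ g.natDegree → ∀ (x : Ω),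
    aeval x g = 0 → SX.HypB (rep (Ω ≃ₐ[ℚ] Ω)) (lg ι x) R D := by
  have h1 : ∀ r : ℕ, ∃ L n₀ : ℕ, 1 ≤ r → ∀ g : ℤ[X], g.Monic →
      Irreducible g → ∀ t : ℕ, t ^ L ≤ g.natDegree →
      n₀ ≤ g.natDegree → |g.coeff 0| = 1 → (g.map (Int.castRingHom ℂ)).mahlerMeasure ≤ 2 ^ t →
      ∀ (Ω : Type) [Field Ω] [NumberField Ω] [IsGalois ℚ Ω],
      (g.map (algebraMap ℤ Ω)).Splits → ∀ x : Fin r → Ω, (∀ i, aeval (x i) g = 0) → MulInd x →
      g.natDegree ^ (r * D - 1) <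
        Module.finrank ℚ (IntermediateField.adjoin ℚ (Set.range x)) ^ D := by
    intro r
    by_cases hr : 1 ≤ r
    · obtain ⟨L, n₀, h⟩ := theoremB_Q r D hr hD
      exact ⟨L, n₀, fun _ => h⟩
    · exact ⟨0, 0, fun h => absurd h hr⟩
  choose L N hN using h1
  refine ⟨∑ r ∈ Finset.range (R + 1), L r, (∑ r ∈ Finset.range (R + 1), N r) + 1, ?_⟩
  intro Ω _ _ _ ι t g hg ht hn x hx r hr1 hr u hu
  have hle : N r ≤ ∑ r ∈ Finset.range (R + 1), N r :=
    Finset.single_le_sum (f := N) (fun _ _ => Nat.zero_le _) (Finset.mem_range.2 (by omega))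
  have hleL : L r ≤ ∑ r ∈ Finset.range (R + 1), L r :=
    Finset.single_le_sum (f := L) (fun _ _ => Nat.zero_le _) (Finset.mem_range.2 (by omega))
  rw [hg.osz_eq ι x hx, hg.tsz_eq ι x hx]
  refine hN r hr1 g hg.monic hg.irr t (pow_le_of hleL ht (by omega)) (by omega) hg.c0 hg.le Ω
    hg.splits (fun i => u i x) (fun i => Nice.root_aut x hx (u i)) ?_
  apply mulInd_of_linearIndependent ι _ fun i => hg.ne_zero _ (Nice.root_aut x hx (u i))
  simpa only [rep_lg] using hu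

/-- Pairwise multiplicatively independent conjugates are multiplicatively independent. -/
theorem mulInd_of_pairwise (R : ℕ) : ∃ L n₀ : ℕ, ∀ (Ω : Type) [Field Ω] [NumberField Ω]
    [IsGalois ℚ Ω] (t : ℕ) (g : ℤ[X]), Nice Ω t g → t ^ L ≤ g.natDegree → n₀ ≤ g.natDegree →
    ∀ r ≤ R, ∀ x : Fin r → Ω,
    (∀ i, aeval (x i) g = 0) → (∀ i j, i ≠ j → x i ≠ x j) →
    (∀ i j, i ≠ j → ∀ k : ℕ, 0 < k → (x i * x j) ^ k ≠ 1) → MulInd x := by
  obtain ⟨n₁, h1⟩ := hypI R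
  obtain ⟨L, n₂, h2⟩ := hypB_nice (R + 2) (900 * 1) (by norm_num)
  refine ⟨L, n₁ + n₂, ?_⟩
  intro Ω _ _ _ t₀ g hg ht₀ hn r hr x hx hne hprod
  obtain ⟨ι⟩ : Nonempty (Ω →+* ℂ) := inferInstance
  rcases Nat.eq_zero_or_pos r with hr0 | hr0
  · subst hr0
    intro a _
    funext i
    exact i.elim0
  have hx0 := hx ⟨0, hr0⟩
  obtain ⟨x₀, hxx⟩ : ∃ x₀, x₀ = x ⟨0, hr0⟩ := ⟨_, rfl⟩
  rw [← hxx] at hx0
  have hex : ∀ i, ∃ s : Ω ≃ₐ[ℚ] Ω, s x₀ = x i := fun i =>
    exists_aut_of_root g hg.monic hg.irr x₀ (x i) hx0 (hx i)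
  choose t ht using hex
  have hl := h1 (rep (Ω ≃ₐ[ℚ] Ω)) (lg ι x₀) (by rw [hg.osz_eq ι x₀ hx0]; omega) 1 le_rfl
    (h2 Ω ι t₀ g hg ht₀ (by omega) x₀ hx0) r hr t (by
      rintro i j hij (h | h)
      · rw [rep_lg, rep_lg, ht, ht] at h
        exact hne i j hij (hg.eq_of_lg ι (x j) (x i) (hx j) (hx i) h)
      · rw [rep_lg, rep_lg, ht, ht] at h
        obtain ⟨k, hk, hk1⟩ := hg.tors_of_neg ι (x j) (x i) (hx j) (hx i) h
        exact hprod i j hij k hk hk1)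
  apply mulInd_of_linearIndependent ι _ fun i => hg.ne_zero _ (hx i)
  simpa only [rep_lg, ht] using hl

end Pool.Agent.Lib.MP_7ab245_nt.Solv.RR
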