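import Mathlib
import Pool.Agent.Lib.MP_7ab245_nt.Solv.FM.TheoremBQ
import Pool.Agent.Lib.MP_7ab245_nt.Solv.F.Orbit

/-! Multiplicatively independent conjugates of small Mahler measure satisfy no polynomial relation of
small degree. -/

set_option autoImplicit false

namespace Pool.Agent.Lib.MP_7ab245_nt.Solv.RR

open Polynomial Module

/-- the exponent vector as an integer vector -/
def emb (r : ℕ) : (Fin r →₀ ℕ) ↪ (Fin r → ℤ) where
  toFun d := fun i => (d i : ℤ)
  inj' := by
    intro d e h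
    ext i
    have h1 : ((d i : ℕ) : ℤ) = ((e i : ℕ) : ℤ) := congrFun h i
    exact_mod_cast h1

/-- a polynomial as a relation -/
noncomputable def relOf {r : ℕ} (P : MvPolynomial (Fin r) ℚ) : (Fin r → ℤ) →₀ ℚ :=
  (Finsupp.onFinset P.support P.coeff (fun d hd => MvPolynomial.mem_support_iff.2 hd)).embDomain
    (emb r)

theorem relOf_ne_zero {r : ℕ} {P : MvPolynomial (Fin r) ℚ} (hP : P ≠ 0) : relOf P ≠ 0 := by
  intro h
  rw [relOf, Finsupp.embDomain_eq_zero] at h
  apply hP
  ext d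
  have := DFunLike.congr_fun h d
  simpa using this

theorem relOf_support {r : ℕ} (P : MvPolynomial (Fin r) ℚ) (t : ℕ)
    (ht : ∀ i, P.degreeOf i ≤ t) : (relOf P).support ⊆ box r t := by
  intro a ha
  rw [relOf, Finsupp.support_embDomain, Finset.mem_map] at ha
  obtain ⟨d, hd, rfl⟩ := ha
  have hd' : d ∈ P.support := by
    rw [Finsupp.mem_support_iff, Finsupp.onFinset_apply] at hd
    exact MvPolynomial.mem_support_iff.2 hd
  rw [mem_box]
  intro i
  have h1 : d i ≤ P.degreeOf i := MvPolynomial.monomial_le_degreeOf i hd'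
  have h2 : d i ≤ t := h1.trans (ht i)
  change |((d i : ℕ) : ℤ)| ≤ t
  rw [abs_of_nonneg (by positivity)]
  exact_mod_cast h2

theorem ev_relOf {K : Type*} [Field K] [CharZero K] {r : ℕ} (α : Fin r → K)
    (P : MvPolynomial (Fin r) ℚ) : ev α 1 (relOf P) = MvPolynomial.aeval α P := by
  rw [ev, relOf, Finsupp.sum_embDomain, MvPolynomial.aeval_def, MvPolynomial.eval₂_eq']
  rw [Finsupp.onFinset_sum]
  · refine Finset.sum_congr rfl fun d _ => ?_
    rw [eq_ratCast]
    congr 1
    rw [mono]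
    refine Finset.prod_congr rfl fun i _ => ?_
    change α i ^ (((1 : ℕ) : ℤ) * ((d i : ℕ) : ℤ)) = _
    rw [Nat.cast_one, one_mul, zpow_natCast]
  · intro d
    rw [Rat.cast_zero, zero_mul]

theorem finrank_le_pow {Ω : Type} [Field Ω] [NumberField Ω] [IsGalois ℚ Ω] (g : ℤ[X])
    (hg : g.Monic) {r : ℕ} (x : Fin r → Ω) (hx : ∀ i, aeval (x i) g = 0) :
    finrank ℚ (IntermediateField.adjoin ℚ (Set.range x)) ≤ g.natDegree ^ r := by
  classical
  rw [← card_range_eq_finrank]
  set S : Finset Ω := (g.map (algebraMap ℤ Ω)).roots.toFinset with hS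
  have hne : g.map (algebraMap ℤ Ω) ≠ 0 := (hg.map _).ne_zero
  have hSc : S.card ≤ g.natDegree := by
    refine (Multiset.toFinset_card_le _).trans ((Polynomial.card_roots' _).trans ?_)
    exact Polynomial.natDegree_map_le
  have hmem : ∀ y : Ω, aeval y g = 0 → y ∈ S := by
    intro y hy
    rw [hS, Multiset.mem_toFinset, mem_roots hne, IsRoot.def, eval_map, ← aeval_def, hy]
  have hsub : (Set.range fun (s : Ω ≃ₐ[ℚ] Ω) => fun i => s (x i)) ⊆
      ((Fintype.piFinset fun _ : Fin r => S : Finset (Fin r → Ω)) : Set (Fin r → Ω)) := by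
    rintro _ ⟨s, rfl⟩
    rw [Finset.mem_coe, Fintype.mem_piFinset]
    intro i
    apply hmem
    rw [aeval_aut, hx i, map_zero]
  rw [Nat.card_coe_set_eq]
  refine (Set.ncard_le_ncard hsub (Finset.finite_toSet _)).trans ?_
  rw [Set.ncard_coe_finset, Fintype.card_piFinset, Finset.prod_const, Finset.card_univ,
    Fintype.card_fin]
  exact Nat.pow_le_pow_left hSc r

/-- No polynomial relation of small degree between multiplicatively independent conjugates. -/
theorem no_relation (r D : ℕ) (hr : 1 ≤ r) (hD : 1 ≤ D) : ∃ L n₀ : ℕ, ∀ g : ℤ[X], g.Monic →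
    Irreducible g → ∀ s : ℕ, s ^ L ≤ g.natDegree →
    n₀ ≤ g.natDegree → |g.coeff 0| = 1 → (g.map (Int.castRingHom ℂ)).mahlerMeasure ≤ 2 ^ s →
    ∀ (Ω : Type) [Field Ω] [NumberField Ω] [IsGalois ℚ Ω],
    (g.map (algebraMap ℤ Ω)).Splits → ∀ x : Fin r → Ω, (∀ i, aeval (x i) g = 0) → MulInd x →
    ∀ P : MvPolynomial (Fin r) ℚ, P ≠ 0 → (∀ i, P.degreeOf i ^ D ≤ g.natDegree ^ (D - 1)) →
    MvPolynomial.aeval x P ≠ 0 := by
  set J := (6 * r + 11) * r * D + 2 with hJ
  have hJbig : 6 * r + 11 ≤ J := by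
    have h1 : 1 ≤ r * D := Nat.mul_pos hr hD
    have h2 : (6 * r + 11) * 1 ≤ (6 * r + 11) * (r * D) := Nat.mul_le_mul_left _ h1
    rw [hJ, mul_assoc]
    omega
  have hJD : (6 * r + 11) * D + 2 ≤ J := by
    have h2 : (6 * r + 11) * D * 1 ≤ (6 * r + 11) * D * r := Nat.mul_le_mul_left _ hr
    rw [hJ]
    have h3 : (6 * r + 11) * D * r = (6 * r + 11) * r * D := by ring
    omega
  set T := 2 * (J + 1) * (r + 2) with hT
  set C := (exps r T).card * (2 * r + T + 6) with hC
  have hC1 : 1 ≤ C := by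
    have h1 : 1 ≤ (exps r T).card :=
      exps_card_pos r T (Nat.succ_le_of_lt (by rw [hT]; positivity))
    exact Nat.mul_pos h1 (by positivity)
  obtain ⟨k, hk⟩ := exists_k C
  set e := (J + 1) * r with he
  obtain ⟨Y₁, hY₁⟩ := num_eventually r C e k hC1 hk
  obtain ⟨Y₂, hY₂⟩ := exists_good_setQ r J hr
  obtain ⟨n₀, hn₀⟩ := b_numQ r D (max (max Y₁ Y₂) (2 ^ (J * (D - 1)))) hr hD J hJ
  refine ⟨2 * (J + 1), max n₀ 1,
    fun g hg hirr s hs hn h0 hM Ω _ _ _ hsp x hx hind P hP hPdeg hPx => ?_⟩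
  obtain ⟨Y, hYY, hY1, hn2, hlt, hlt', hht, hX1, hK1, hXe, -, hgs⟩ :=
    hn₀ g.natDegree ((le_max_left _ _).trans hn) s hs
  have hYY1 : max Y₁ Y₂ ≤ Y := (le_max_left _ _).trans hYY
  have hYp : 2 ^ (J * (D - 1)) ≤ Y := (le_max_right _ _).trans hYY
  have hd : 1 ≤ g.natDegree := (le_max_right _ _).trans hn
  have hnum : Num r C e k Y := hY₁ Y ((le_max_left _ _).trans hYY1)
  obtain ⟨S, hSc, hS⟩ := hY₂ Y ((le_max_right _ _).trans hYY1) s hgs g hg hirr hlt hM Ω hsp x hx
  obtain ⟨ι⟩ : Nonempty (Ω →+* ℂ) := inferInstance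
  have hu := fun i => unit_of_coeff g hg hd h0 (x i) (hx i)
  set X := Y ^ (J - 3) with hX
  have hXY : X * Y ^ 2 = Y ^ (J - 1) := by
    rw [hX, ← pow_add]
    congr 1
    omega
  have hdeg : finrank ℚ (IntermediateField.adjoin ℚ (Set.range x)) ≤ g.natDegree ^ r :=
    finrank_le_pow g hg x hx
  have henv : Env (fun i => ι (x i)) C e Y X S := by
    refine ⟨fun i => ?_, mulInd_transfer ι x hind, integral_transfer ι x, ?_, ?_, ?_, ?_, hSc,
      hXe, ?_⟩
    · simpa using (hu i).1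
    · rw [finrank_big]
      exact hdeg.trans hK1
    · exact fun p hp => (hS p hp).2.2.1
    · exact fun p hp => (hS p hp).1
    · exact fun p hp => (hS p hp).2.1
    · intro m N S' E hm hS' hS'n hE hmN
      rw [rkS_transfer, rk_transfer]
      exact ki_gal ι x (fun i => (hu i).1) (fun i => (hu i).2.1) (fun i => (hu i).2.2) J Y X
        g.natDegree hY1 hlt' hn2 hX1
        (by rw [hXY]; exact ht_okT ι g hg hirr hd h0 s hM hsp x hx _ hht) S
        hS m N S' E hm hS' hS'n hE hmN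
  set t := Y ^ (J - (6 * r + 11)) with ht
  have htpos : 1 ≤ t := Nat.one_le_pow _ _ (by omega)
  have hdegt : ∀ i, P.degreeOf i ≤ t := by
    intro i
    have h1 : g.natDegree ^ (D - 1) ≤ t ^ D := by
      calc g.natDegree ^ (D - 1) ≤ ((Y + 1) ^ J) ^ (D - 1) := Nat.pow_le_pow_left hlt.le _
        _ ≤ ((2 * Y) ^ J) ^ (D - 1) := by
            refine Nat.pow_le_pow_left (Nat.pow_le_pow_left (by omega) _) _
        _ = 2 ^ (J * (D - 1)) * Y ^ (J * (D - 1)) := by rw [← pow_mul, mul_pow]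
        _ ≤ Y * Y ^ (J * (D - 1)) := Nat.mul_le_mul_right _ hYp
        _ = Y ^ (J * (D - 1) + 1) := by rw [pow_succ, mul_comm]
        _ ≤ Y ^ ((J - (6 * r + 11)) * D) := by
            refine Nat.pow_le_pow_right (by omega) ?_
            obtain ⟨D', rfl⟩ : ∃ D', D = D' + 1 := ⟨D - 1, by omega⟩
            rw [Nat.add_sub_cancel, Nat.sub_mul]
            have h2 : J * (D' + 1) = J * D' + J := by ring
            omega
        _ = t ^ D := by rw [ht, ← pow_mul]
    exact (Nat.pow_le_pow_iff_left (by omega)).1 ((hPdeg i).trans h1)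
  have hfin := geometric_main (fun i => ι (x i)) henv hnum t htpos (by
      rw [ht, hX, ← pow_add]
      apply Nat.pow_le_pow_right (by omega)
      omega) (relOf P) (relOf_support P t hdegt) (by
      rw [ev_relOf]
      have h1 : MvPolynomial.aeval (fun i => ι (x i)) P = ι (MvPolynomial.aeval x P) := by
        rw [MvPolynomial.aeval_def, MvPolynomial.aeval_def, MvPolynomial.hom_eval₂]
        congr 1
        exact Subsingleton.elim _ _
      rw [h1, hPx, map_zero])
  exact relOf_ne_zero hP hfin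

end Pool.Agent.Lib.MP_7ab245_nt.Solv.RR
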