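import Mathlib
import Pool.Agent.Lib.MP_7ab245_nt.Solv.F.FinalX
import Pool.Agent.Lib.MP_7ab245_nt.Solv.F.E1
import Pool.Agent.Lib.MP_7ab245_nt.Solv.RR.Nice
import Pool.Agent.Lib.MP_7ab245_nt.Solv.RR.NoRel

/-! The conjugates of small Mahler measure over the complex numbers. -/

set_option autoImplicit false

open Polynomial Module

namespace Pool.Agent.Lib.MP_7ab245_nt.Solv.RR

/-- the roots in `ℂ` come from the splitting field -/
theorem root_lift {Ω : Type} [Field Ω] [NumberField Ω] (ι : Ω →+* ℂ) (g : ℤ[X]) (h0 : g ≠ 0)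
    (hs : (g.map (algebraMap ℤ Ω)).Splits) (z : ℂ) (hz : aeval z g = 0) :
    ∃ x : Ω, aeval x g = 0 ∧ ι x = z := by
  have h1 : g.map (algebraMap ℤ Ω) ≠ 0 :=
    (Polynomial.map_ne_zero_iff (FaithfulSMul.algebraMap_injective ℤ Ω)).2 h0
  have h2 : ((g.map (algebraMap ℤ Ω)).map ι).IsRoot z := by
    rw [IsRoot.def, Polynomial.map_map, eval_map]
    have h3 : ι.comp (algebraMap ℤ Ω) = algebraMap ℤ ℂ := RingHom.ext_int _ _
    rw [h3, ← aeval_def, hz]
  obtain ⟨x, hx⟩ := hs.mem_range_of_isRoot h1 h2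
  refine ⟨x, ?_, hx⟩
  apply ι.injective
  have h4 : ι (aeval x g) = aeval (ι x) g := by
    rw [aeval_def, aeval_def, Polynomial.hom_eval₂]
    have h3 : ι.comp (algebraMap ℤ Ω) = algebraMap ℤ ℂ := RingHom.ext_int _ _
    rw [h3]
  rw [h4, hx, hz, map_zero]

theorem root_push {Ω : Type} [Field Ω] [NumberField Ω] (ι : Ω →+* ℂ) (g : ℤ[X]) (x : Ω)
    (hx : aeval x g = 0) : aeval (ι x) g = 0 := by
  have h4 : ι (aeval x g) = aeval (ι x) g := by
    rw [aeval_def, aeval_def, Polynomial.hom_eval₂]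
    have h3 : ι.comp (algebraMap ℤ Ω) = algebraMap ℤ ℂ := RingHom.ext_int _ _
    rw [h3]
  rw [← h4, hx, map_zero]

/-- The theorem for `Nice` polynomials, over `ℂ`. -/
theorem nice_complex (R D : ℕ) (hD : 1 ≤ D) : ∃ L n₀ : ℕ, ∀ (Ω : Type) [Field Ω] [NumberField Ω]
    [IsGalois ℚ Ω] (t : ℕ) (g : ℤ[X]), Nice Ω t g → t ^ L ≤ g.natDegree → n₀ ≤ g.natDegree →
    ∀ r, 1 ≤ r → r ≤ R →
    ∀ x : Fin r → ℂ, (∀ i, aeval (x i) g = 0) →
    (∀ i j, i ≠ j → ∀ a b : ℤ, x i ^ a * x j ^ b = 1 → a = 0 ∧ b = 0) →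
    (∀ a : Fin r → ℤ, ∏ i, x i ^ a i = 1 → a = 0) ∧
    (∀ P : MvPolynomial (Fin r) ℚ, P ≠ 0 → (∀ i, P.degreeOf i ^ D ≤ g.natDegree ^ (D - 1)) →
      MvPolynomial.aeval x P ≠ 0) ∧
    g.natDegree ^ (r * D - 1) < finrank ℚ (IntermediateField.adjoin ℚ (Set.range x)) ^ D := by
  obtain ⟨L₁, n₁, h1⟩ := mulInd_of_pairwise R
  have h2 : ∀ r : ℕ, ∃ L n₀ : ℕ, 1 ≤ r → ∀ g : ℤ[X], g.Monic → Irreducible g →
      ∀ t : ℕ, t ^ L ≤ g.natDegree →
      n₀ ≤ g.natDegree → |g.coeff 0| = 1 → (g.map (Int.castRingHom ℂ)).mahlerMeasure ≤ 2 ^ t →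
      ∀ (Ω : Type) [Field Ω] [NumberField Ω] [IsGalois ℚ Ω],
      (g.map (algebraMap ℤ Ω)).Splits → ∀ x : Fin r → Ω, (∀ i, aeval (x i) g = 0) → MulInd x →
      (∀ P : MvPolynomial (Fin r) ℚ, P ≠ 0 → (∀ i, P.degreeOf i ^ D ≤ g.natDegree ^ (D - 1)) →
        MvPolynomial.aeval x P ≠ 0) ∧
      g.natDegree ^ (r * D - 1) <
        finrank ℚ (IntermediateField.adjoin ℚ (Set.range x)) ^ D := by
    intro r
    by_cases hr : 1 ≤ r
    · obtain ⟨L₁, m₁, k1⟩ := theoremB_Q r D hr hD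
      obtain ⟨L₂, m₂, k2⟩ := no_relation r D hr hD
      refine ⟨L₁ + L₂, m₁ + m₂ + 1,
        fun _ g hm hi t ht hn h0 hM Ω _ _ _ hs x hx hind => ⟨?_, ?_⟩⟩
      · exact k2 g hm hi t (pow_le_of (by omega) ht (by omega)) (by omega) h0 hM Ω hs x hx hind
      · exact k1 g hm hi t (pow_le_of (by omega) ht (by omega)) (by omega) h0 hM Ω hs x hx hind
    · exact ⟨0, 0, fun h => absurd h hr⟩
  choose L N hN using h2
  refine ⟨L₁ + ∑ r ∈ Finset.range (R + 1), L r, n₁ + ∑ r ∈ Finset.range (R + 1), N r + 1, ?_⟩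
  intro Ω _ _ _ t g hg ht hn r hr1 hr x hx hpair
  have hle : N r ≤ ∑ r ∈ Finset.range (R + 1), N r :=
    Finset.single_le_sum (f := N) (fun _ _ => Nat.zero_le _) (Finset.mem_range.2 (by omega))
  have hleL : L r ≤ ∑ r ∈ Finset.range (R + 1), L r :=
    Finset.single_le_sum (f := L) (fun _ _ => Nat.zero_le _) (Finset.mem_range.2 (by omega))
  obtain ⟨ι⟩ : Nonempty (Ω →+* ℂ) := inferInstance
  have hex : ∀ i, ∃ y : Ω, aeval y g = 0 ∧ ι y = x i := fun i =>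
    root_lift ι g hg.monic.ne_zero hg.splits (x i) (hx i)
  choose y hy hyx using hex
  have hxy : x = fun i => ι (y i) := by
    funext i
    exact (hyx i).symm
  have hne : ∀ i j, i ≠ j → y i ≠ y j := by
    intro i j hij h
    have h3 := hpair i j hij 1 (-1) (by
      rw [← hyx i, ← hyx j, h, zpow_one, zpow_neg_one]
      apply mul_inv_cancel₀
      rw [_root_.map_ne_zero]
      exact hg.ne_zero _ (hy j))
    exact one_ne_zero h3.1
  have hprod : ∀ i j, i ≠ j → ∀ k : ℕ, 0 < k → (y i * y j) ^ k ≠ 1 := by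
    intro i j hij k hk h
    have h3 := hpair i j hij k k (by
      rw [← hyx i, ← hyx j, zpow_natCast, zpow_natCast, ← mul_pow, ← map_mul, ← map_pow, h,
        map_one])
    have h4 : k = 0 := by exact_mod_cast h3.1
    omega
  have hind := h1 Ω t g hg (pow_le_of (by omega) ht (by omega)) (by omega) r hr y hy hne hprod
  obtain ⟨h3, h4⟩ := hN r hr1 g hg.monic hg.irr t (pow_le_of (by omega) ht (by omega))
    (by omega) hg.c0 hg.le Ω hg.splits y hy hind
  refine ⟨?_, ?_, ?_⟩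
  · intro a ha
    have h5 := mulInd_transfer ι y hind
    apply h5 a
    rw [mono, ← ha]
    refine Finset.prod_congr rfl fun i _ => ?_
    rw [hyx, Nat.cast_one, one_mul]
  · intro P hP hPd h5
    apply h3 P hP hPd
    apply ι.injective
    rw [map_zero, ← h5, hxy, MvPolynomial.aeval_def, MvPolynomial.aeval_def,
      MvPolynomial.hom_eval₂]
    congr 1
    exact Subsingleton.elim _ _
  · have h5 := finrank_big ι y
    rw [hxy]
    have h6 : IntermediateField.adjoin ℚ (Set.range fun i => ι (y i)) =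
        big (fun i => ι (y i)) := rfl
    rw [h6, h5]
    exact h4

theorem nontors_of_complex {Ω : Type} [Field Ω] [NumberField Ω] (g : ℤ[X])
    (h : ∀ x y : ℂ, aeval x g = 0 → aeval y g = 0 → ∀ k : ℕ, 0 < k → x ^ k = y ^ k → x = y)
    (x y : Ω) (hx : aeval x g = 0) (hy : aeval y g = 0) (k : ℕ) (hk : 0 < k)
    (hxy : x ^ k = y ^ k) : x = y := by
  obtain ⟨ι⟩ : Nonempty (Ω →+* ℂ) := inferInstance
  apply ι.injective
  exact h _ _ (root_push ι g x hx) (root_push ι g y hy) k hk (by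
    rw [← map_pow, ← map_pow, hxy])

end Pool.Agent.Lib.MP_7ab245_nt.Solv.RR
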