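import Mathlib
import Pool.Agent.Lib.MP_7ab245_nt.Solv.F.SmallDeg

/-! Bounds for the degree in terms of the logarithm of the Mahler measure. -/

set_option autoImplicit false

open Polynomial

namespace Pool.Agent.Lib.MP_7ab245_nt.Solv.RR

theorem exists_two_pow (x : ℝ) (hx : 2 ≤ x) : ∃ t : ℕ, x ≤ 2 ^ t ∧
    (t : ℝ) ≤ 2 / Real.log 2 * Real.log x := by
  have h2 : 0 < Real.log 2 := Real.log_pos (by norm_num)
  have hx0 : 0 < x := by linarith
  refine ⟨⌈Real.log x / Real.log 2⌉₊, ?_, ?_⟩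
  · have h1 : Real.log x / Real.log 2 ≤ (⌈Real.log x / Real.log 2⌉₊ : ℝ) := Nat.le_ceil _
    rw [div_le_iff₀ h2] at h1
    have h3 : Real.log x ≤ Real.log ((2 : ℝ) ^ ⌈Real.log x / Real.log 2⌉₊) := by
      rw [Real.log_pow]
      exact h1
    exact (Real.log_le_log_iff hx0 (by positivity)).1 h3
  · have h4 : Real.log 2 ≤ Real.log x := Real.log_le_log (by norm_num) hx
    have h5 : 1 ≤ Real.log x / Real.log 2 := by
      rw [le_div_iff₀ h2, one_mul]
      exact h4
    have h6 := (Nat.ceil_lt_add_one (show 0 ≤ Real.log x / Real.log 2 by linarith)).le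
    calc (⌈Real.log x / Real.log 2⌉₊ : ℝ) ≤ Real.log x / Real.log 2 + 1 := h6
      _ ≤ Real.log x / Real.log 2 + Real.log x / Real.log 2 := by linarith
      _ = 2 / Real.log 2 * Real.log x := by ring

/-- from a bound in terms of `t` to a bound in terms of the logarithm -/
theorem deg_le_log (L n₀ : ℕ) : ∃ C : ℝ, 0 < C ∧ ∀ g : ℤ[X], 1 < M g →
    (∀ t : ℕ, M g ≤ 2 ^ t → t ^ L ≤ g.natDegree → g.natDegree < n₀) →
    (g.natDegree : ℝ) ≤ C * Real.log (M g) ^ L := by
  obtain ⟨c, hc, hsmall⟩ := small_degree n₀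
  have hlog2 : 0 < Real.log 2 := Real.log_pos (by norm_num)
  have ha : 0 < Real.log (1 + c) := Real.log_pos (by linarith)
  have hp1 : 0 < Real.log (1 + c) ^ L := pow_pos ha L
  have hp2 : 0 < Real.log 2 ^ L := pow_pos hlog2 L
  have hp3 : 0 < (2 / Real.log 2) ^ L := pow_pos (div_pos (by norm_num) hlog2) L
  refine ⟨n₀ / Real.log (1 + c) ^ L + n₀ / Real.log 2 ^ L + (2 / Real.log 2) ^ L, ?_, ?_⟩
  · have h1 : (0 : ℝ) ≤ n₀ / Real.log (1 + c) ^ L := by positivity
    have h2 : (0 : ℝ) ≤ n₀ / Real.log 2 ^ L := by positivity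
    linarith
  intro g hg h
  have hlogM : 0 < Real.log (M g) := Real.log_pos hg
  have hpM : 0 < Real.log (M g) ^ L := pow_pos hlogM L
  have hA : 0 ≤ n₀ / Real.log (1 + c) ^ L * Real.log (M g) ^ L := by positivity
  have hB : 0 ≤ n₀ / Real.log 2 ^ L * Real.log (M g) ^ L := by positivity
  have hC : 0 ≤ (2 / Real.log 2) ^ L * Real.log (M g) ^ L := by positivity
  rw [add_mul, add_mul]
  rcases le_or_gt (M g) 2 with h2 | h2
  · rcases Nat.eq_zero_or_pos g.natDegree with h0 | h0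
    · rw [h0]
      push_cast
      linarith
    · have h3 := h 1 (by rw [pow_one]; exact h2) (by rw [one_pow]; exact h0)
      have h4 := hsmall g h3.le hg
      have h5 : Real.log (1 + c) ≤ Real.log (M g) := Real.log_le_log (by linarith) h4
      have h6 : Real.log (1 + c) ^ L ≤ Real.log (M g) ^ L := pow_le_pow_left₀ ha.le h5 L
      have h7 : (n₀ : ℝ) ≤ n₀ / Real.log (1 + c) ^ L * Real.log (M g) ^ L := by
        rw [div_mul_eq_mul_div, le_div_iff₀ hp1]
        exact mul_le_mul_of_nonneg_left h6 (Nat.cast_nonneg _)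
      have h8 : (g.natDegree : ℝ) ≤ n₀ := by exact_mod_cast h3.le
      linarith
  · obtain ⟨t, ht1, ht2⟩ := exists_two_pow (M g) h2.le
    by_cases h3 : t ^ L ≤ g.natDegree
    · have h4 := h t ht1 h3
      have h5 : Real.log 2 ≤ Real.log (M g) := Real.log_le_log (by norm_num) h2.le
      have h6 : Real.log 2 ^ L ≤ Real.log (M g) ^ L := pow_le_pow_left₀ hlog2.le h5 L
      have h7 : (n₀ : ℝ) ≤ n₀ / Real.log 2 ^ L * Real.log (M g) ^ L := by
        rw [div_mul_eq_mul_div, le_div_iff₀ hp2]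
        exact mul_le_mul_of_nonneg_left h6 (Nat.cast_nonneg _)
      have h8 : (g.natDegree : ℝ) ≤ n₀ := by exact_mod_cast h4.le
      linarith
    · push Not at h3
      have h4 : (g.natDegree : ℝ) ≤ (t : ℝ) ^ L := by exact_mod_cast h3.le
      have h5 : (t : ℝ) ^ L ≤ (2 / Real.log 2 * Real.log (M g)) ^ L :=
        pow_le_pow_left₀ (Nat.cast_nonneg _) ht2 L
      rw [mul_pow] at h5
      linarith

/-- a power of two above `(n + 1) * H` whose exponent is small -/
theorem exists_exponent (L n₀ H : ℕ) : ∃ N : ℕ, ∀ n : ℕ, N ≤ n → n₀ ≤ n ∧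
    ∃ t : ℕ, t ^ L ≤ n ∧ ((n : ℝ) + 1) * H ≤ 2 ^ t := by
  have hlog2 : 0 < Real.log 2 := Real.log_pos (by norm_num)
  set K : ℝ := (2 / Real.log 2) ^ L with hK
  have hKpos : 0 < K := pow_pos (div_pos (by norm_num) hlog2) L
  set ε : ℝ := 1 / (2 * K * (H + 1)) with hε
  have hεpos : 0 < ε := by positivity
  have h1 := (Real.isLittleO_pow_log_id_atTop (n := L)).bound hεpos
  rw [Filter.eventually_atTop] at h1
  obtain ⟨x₀, hx₀⟩ := h1
  obtain ⟨N₁, hN₁⟩ := exists_nat_ge x₀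
  refine ⟨max n₀ (max N₁ 2), fun n hn => ⟨(le_max_left _ _).trans hn, ?_⟩⟩
  have hn1 : N₁ ≤ n := ((le_max_left _ _).trans (le_max_right _ _)).trans hn
  have hn2 : 2 ≤ n := ((le_max_right _ _).trans (le_max_right _ _)).trans hn
  have hn2' : (2 : ℝ) ≤ n := by exact_mod_cast hn2
  have hn1' : (N₁ : ℝ) ≤ n := by exact_mod_cast hn1
  have hH0 : (0 : ℝ) ≤ H := Nat.cast_nonneg _
  set x : ℝ := ((n : ℝ) + 1) * (H + 1) with hx
  have hxn : (n : ℝ) + 1 ≤ x := by
    rw [hx]
    nlinarith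
  have hx2 : 2 ≤ x := by linarith
  obtain ⟨t, ht1, ht2⟩ := exists_two_pow x hx2
  refine ⟨t, ?_, ?_⟩
  · have h2 := hx₀ x (by linarith)
    have hlogx : 0 ≤ Real.log x := Real.log_nonneg (by linarith)
    rw [Real.norm_of_nonneg (pow_nonneg hlogx L), id, Real.norm_of_nonneg (by linarith)] at h2
    have h3 : (t : ℝ) ^ L ≤ K * Real.log x ^ L := by
      rw [hK, ← mul_pow]
      exact pow_le_pow_left₀ (Nat.cast_nonneg _) ht2 L
    have h4 : K * Real.log x ^ L ≤ K * (ε * x) := mul_le_mul_of_nonneg_left h2 hKpos.le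
    have h5 : K * (ε * x) = ((n : ℝ) + 1) / 2 := by
      rw [hε, hx]
      field_simp
    have h6 : (t : ℝ) ^ L ≤ n := by
      rw [h5] at h4
      linarith
    exact_mod_cast h6
  · refine le_trans ?_ ht1
    rw [hx]
    nlinarith

/-- the Mahler measure of a polynomial with bounded coefficients -/
theorem M_le_of_coeff (g : ℤ[X]) (H : ℕ) (h : ∀ i, |g.coeff i| ≤ H) :
    M g ≤ ((g.natDegree : ℝ) + 1) * H := by
  have hinj : Function.Injective (Int.castRingHom ℂ) := RingHom.injective_int _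
  refine (mahlerMeasure_le_sum_norm_coeff (g.map (Int.castRingHom ℂ))).trans ?_
  rw [Polynomial.sum_def, Polynomial.support_map_of_injective _ hinj]
  have h1 : ∀ i ∈ g.support, ‖(g.map (Int.castRingHom ℂ)).coeff i‖ ≤ (H : ℝ) := by
    intro i _
    rw [coeff_map, eq_intCast, Complex.norm_intCast]
    have h2 := h i
    exact_mod_cast h2
  refine (Finset.sum_le_card_nsmul _ _ _ h1).trans ?_
  rw [nsmul_eq_mul]
  apply mul_le_mul_of_nonneg_right _ (Nat.cast_nonneg _)
  have h3 := g.card_supp_le_succ_natDegree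
  exact_mod_cast h3

end Pool.Agent.Lib.MP_7ab245_nt.Solv.RR
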