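import Mathlib
import Pool.Agent.Lib.MP_7ab245_nt.Solv.RR.Fin
import Pool.Agent.Lib.MP_7ab245_nt.Solv.RR.Red
import Pool.Agent.Lib.MP_7ab245_nt.Solv.RR.LogDeg

/-! Polynomials with a multiplicative relation between few roots: the Mahler measure is the Mahler
measure of a polynomial of small degree. -/

set_option autoImplicit false

open Polynomial Module

namespace Pool.Agent.Lib.MP_7ab245_nt.Solv.RR

/-- In a number field: the relation passes to a polynomial without torsion quotients of roots. -/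
theorem zero_field (R : ℕ) : ∃ L n₀ : ℕ, ∀ (Ω : Type) [Field Ω] [NumberField Ω]
    [IsGalois ℚ Ω] (g : ℤ[X]), g.Monic → Irreducible g → 1 < M g → |g.coeff 0| = 1 →
    (g.map (algebraMap ℤ Ω)).Splits → ∀ r ≤ R, ∀ y : Fin r → Ω, (∀ i, aeval (y i) g = 0) →
    (∀ i j, i ≠ j → ∀ k : ℕ, 0 < k → y i ^ k ≠ y j ^ k ∧ (y i * y j) ^ k ≠ 1) → ¬ MulInd y →
    ∃ F : ℤ[X], M F = M g ∧
      ∀ t : ℕ, M F ≤ 2 ^ t → t ^ L ≤ F.natDegree → F.natDegree < n₀ := by
  obtain ⟨L, n₀, hn₀⟩ := mulInd_of_pairwise R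
  refine ⟨L, n₀, ?_⟩
  intro Ω _ _ _ g hm hi hg1 hc hs r hr y hy hpair hdep
  obtain ⟨t₁, ht₁⟩ : ∃ t : ℕ, M g ≤ 2 ^ t := by
    obtain ⟨t, ht⟩ := pow_unbounded_of_one_lt (M g) (show (1 : ℝ) < 2 by norm_num)
    exact ⟨t, ht.le⟩
  obtain ⟨g', hn', hM', d, hd, hz⟩ := exists_reduced t₁ g hm hi hg1 ht₁ hc hs
  refine ⟨g', hM', fun t ht htL => ?_⟩
  by_contra hdeg
  push Not at hdeg
  apply hdep
  have hn : Nice Ω t g' := ⟨hn'.monic, hn'.irr, hn'.splits, hn'.c0, ht, hn'.nt⟩
  have hex : ∀ i, ∃ z : Ω, aeval z g' = 0 ∧ ∃ K : ℕ, 0 < K ∧ z ^ K = y i ^ (d * K) :=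
    fun i => hz (y i) (hy i)
  choose z hz0 K hK hzK using hex
  set T : ℕ := ∏ i, K i with hT
  have hTpos : 0 < T := Finset.prod_pos fun i _ => hK i
  have hzT : ∀ i, z i ^ T = y i ^ (d * T) := by
    intro i
    obtain ⟨L, hL⟩ : K i ∣ T := Finset.dvd_prod_of_mem K (Finset.mem_univ i)
    rw [hL, pow_mul, hzK, ← pow_mul]
    congr 1
    ring
  have hind : MulInd z := by
    refine hn₀ Ω t g' hn htL hdeg r hr z hz0 ?_ ?_
    · intro i j hij h
      have h3 := (hpair i j hij (d * T) (Nat.mul_pos hd hTpos)).1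
      apply h3
      rw [← hzT, ← hzT, h]
    · intro i j hij k hk h
      have h3 := (hpair i j hij (d * T * k) (Nat.mul_pos (Nat.mul_pos hd hTpos) hk)).2
      apply h3
      rw [pow_mul, mul_pow, ← hzT, ← hzT, ← mul_pow, ← pow_mul, mul_comm T k, pow_mul, h, one_pow]
  intro a ha
  have hy0 : ∀ i, y i ≠ 0 := by
    intro i h0
    have h3 := hz0 i
    have h4 : z i ^ T = 0 := by
      rw [hzT, h0, zero_pow (Nat.mul_pos hd hTpos).ne']
    exact hn.ne_zero (z i) h3 (pow_eq_zero_iff hTpos.ne' |>.1 h4)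
  have h3 : mono z 1 (fun i => (T : ℤ) * a i) = 1 := by
    rw [mono] at ha ⊢
    have h4 : ∀ i, z i ^ (((1 : ℕ) : ℤ) * ((T : ℤ) * a i)) =
        (y i ^ (((1 : ℕ) : ℤ) * a i)) ^ (d * T) := by
      intro i
      rw [Nat.cast_one, one_mul, one_mul, zpow_mul, zpow_natCast, hzT, ← zpow_natCast,
        ← zpow_mul, ← zpow_natCast, ← zpow_mul, mul_comm]
    rw [Finset.prod_congr rfl fun i _ => h4 i, Finset.prod_pow, ha, one_pow]
  have h5 := hind _ h3
  funext i
  have h6 := congrFun h5 i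
  rw [Pi.zero_apply] at h6 ⊢
  rcases mul_eq_zero.1 h6 with h7 | h7
  · exfalso
    have : T = 0 := by exact_mod_cast h7
    omega
  · exact h7

/-- `f` has `r ≤ R` multiplicatively dependent roots any two of which are multiplicatively
independent. -/
def Dep (R : ℕ) (f : ℤ[X]) : Prop := ∃ r ≤ R, ∃ x : Fin r → ℂ, (∀ i, aeval (x i) f = 0) ∧
  (∀ i j, i ≠ j → ∀ a b : ℤ, x i ^ a * x j ^ b = 1 → a = 0 ∧ b = 0) ∧
  ∃ a : Fin r → ℤ, a ≠ 0 ∧ ∏ i, x i ^ a i = 1

theorem Dep.neg {R : ℕ} {f : ℤ[X]} (h : Dep R f) : Dep R (-f) := by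
  obtain ⟨r, hr, x, hx, h1⟩ := h
  exact ⟨r, hr, x, fun i => by rw [map_neg, hx i, neg_zero], h1⟩

/-- The Mahler measure of a polynomial with a relation between few roots is that of a polynomial of
small degree. -/
theorem part_zero (R : ℕ) : ∃ L n₀ : ℕ, ∀ f : ℤ[X], Irreducible f → |f.leadingCoeff| = 1 →
    |f.coeff 0| = 1 → 1 < M f → Dep R f → ∃ F : ℤ[X], M F = M f ∧
      ∀ t : ℕ, M F ≤ 2 ^ t → t ^ L ≤ F.natDegree → F.natDegree < n₀ := by
  obtain ⟨L, n₀, h⟩ := zero_field R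
  refine ⟨L, n₀, ?_⟩
  have key : ∀ f : ℤ[X], f.Monic → Irreducible f → 1 < M f → |f.coeff 0| = 1 → Dep R f →
      ∃ F : ℤ[X], M F = M f ∧
        ∀ t : ℕ, M F ≤ 2 ^ t → t ^ L ≤ F.natDegree → F.natDegree < n₀ := by
    rintro f hm hi h1 hc ⟨r, hr, x, hx, hpair, a, ha0, ha⟩
    obtain ⟨ι⟩ : Nonempty ((rat f).SplittingField →+* ℂ) := inferInstance
    have hex : ∀ i, ∃ y : (rat f).SplittingField, aeval y f = 0 ∧ ι y = x i := fun i =>
      root_lift ι f hm.ne_zero (splits_self f) (x i) (hx i)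
    choose y hy hyx using hex
    have hf0 : ∀ i, x i ≠ 0 := by
      intro i h0
      have h4 := hx i
      rw [h0, ← Polynomial.coeff_zero_eq_aeval_zero', algebraMap_int_eq, eq_intCast] at h4
      have h5 : f.coeff 0 = 0 := by exact_mod_cast h4
      rw [h5] at hc
      simp at hc
    refine h (rat f).SplittingField f hm hi h1 hc (splits_self f) r hr y hy ?_ ?_
    · intro i j hij k hk
      constructor
      · intro h3
        have h4 := hpair i j hij k (-k) (by
          have h5 : x i ^ k = x j ^ k := by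
            rw [← hyx, ← hyx, ← map_pow, ← map_pow, h3]
          rw [zpow_neg, zpow_natCast, zpow_natCast, h5]
          exact mul_inv_cancel₀ (pow_ne_zero k (hf0 j)))
        have h5 : k = 0 := by exact_mod_cast h4.1
        omega
      · intro h3
        have h4 := hpair i j hij k k (by
          rw [zpow_natCast, zpow_natCast, ← mul_pow, ← hyx, ← hyx, ← map_mul, ← map_pow, h3,
            map_one])
        have h5 : k = 0 := by exact_mod_cast h4.1
        omega
    · intro hind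
      apply ha0
      have h5 := mulInd_transfer ι y hind
      apply h5 a
      rw [mono, ← ha]
      refine Finset.prod_congr rfl fun i _ => ?_
      rw [hyx, Nat.cast_one, one_mul]
  intro f hi hl hc h1 hdep
  rcases eq_or_eq_neg_of_abs_eq hl with h3 | h3
  · exact key f h3 hi h1 hc hdep
  · have h4 := key (-f) (by rw [Monic, leadingCoeff_neg, h3, neg_neg])
      ((Associated.irreducible_iff (Associated.neg_right (Associated.refl f))).1 hi)
      (by rw [M_neg]; exact h1) (by rw [coeff_neg, abs_neg]; exact hc) hdep.neg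
    rw [M_neg] at h4
    exact h4

end Pool.Agent.Lib.MP_7ab245_nt.Solv.RR
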