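import Mathlib
import Pool.Agent.Lib.MP_7ab245_nt.Solv.RR.Zero

/-! Polynomials all of whose reduced relatives have small degree, and polynomials with bounded
coefficients. -/

set_option autoImplicit false

open Polynomial Module

namespace Pool.Agent.Lib.MP_7ab245_nt.Solv.RR

private theorem abs_eq_one_of_mul {a b : ℤ} (h : |a * b| = 1) : |a| = 1 ∧ |b| = 1 := by
  have h1 := Int.isUnit_iff_abs_eq.2 h
  exact ⟨Int.isUnit_iff_abs_eq.1 (isUnit_of_mul_isUnit_left h1),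
    Int.isUnit_iff_abs_eq.1 (isUnit_of_mul_isUnit_right h1)⟩

/-- an irreducible factor of Mahler measure `> 1` can be replaced by a nice polynomial -/
theorem exists_nice {Ω : Type} [Field Ω] [NumberField Ω] [IsGalois ℚ Ω]
    {i : ℤ[X]} (hi : Irreducible i) (hs : (i.map (algebraMap ℤ Ω)).Splits)
    (hl : |i.leadingCoeff| = 1) (ht : |i.trailingCoeff| = 1) (h1 : 1 < M i) :
    ∃ (t : ℕ) (g : ℤ[X]), Nice Ω t g ∧ M g = M i := by
  obtain ⟨t, h2'⟩ := pow_unbounded_of_one_lt (M i) (show (1 : ℝ) < 2 by norm_num)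
  have h2 : M i ≤ 2 ^ t := h2'.le
  have hc0 : i.coeff 0 ≠ 0 := coeff_ne_zero_of hi h1
  have htc : i.trailingCoeff = i.coeff 0 := by
    rw [trailingCoeff, natTrailingDegree_eq_zero.2 (Or.inr hc0)]
  rw [htc] at ht
  rcases Int.isUnit_iff.1 (Int.isUnit_iff_abs_eq.2 hl) with h | h
  · obtain ⟨g, hg, hM, -⟩ := exists_reduced t i h hi h1 h2 ht hs
    exact ⟨t, g, hg, hM⟩
  · obtain ⟨g, hg, hM, -⟩ := exists_reduced (Ω := Ω) t (-i)
      (by rw [Monic, leadingCoeff_neg, h, neg_neg])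
      ((Associated.irreducible_iff (Associated.neg_right (Associated.refl i))).1 hi)
      (by rw [M_neg]; exact h1) (by rw [M_neg]; exact h2)
      (by rw [coeff_neg, abs_neg]; exact ht) (by rw [Polynomial.map_neg]; exact hs.neg)
    rw [M_neg] at hM
    exact ⟨t, g, hg, hM⟩

private theorem add_pow_le {a b : ℝ} (ha : 0 ≤ a) (hb : 0 ≤ b) (L : ℕ) (hL : 1 ≤ L) :
    a ^ L + b ^ L ≤ (a + b) ^ L := by
  obtain ⟨l, rfl⟩ : ∃ l, L = l + 1 := ⟨L - 1, by omega⟩
  have h1 : a ^ l ≤ (a + b) ^ l := pow_le_pow_left₀ ha (by linarith) l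
  have h2 : b ^ l ≤ (a + b) ^ l := pow_le_pow_left₀ hb (by linarith) l
  rw [pow_succ, pow_succ, pow_succ, mul_add]
  have h3 := mul_le_mul_of_nonneg_right h1 ha
  have h4 := mul_le_mul_of_nonneg_right h2 hb
  linarith

theorem exists_prod {C B : ℝ} (hC : 0 ≤ C) (L : ℕ) (hL : 1 ≤ L) {Ω : Type} [Field Ω]
    [NumberField Ω] [IsGalois ℚ Ω]
    (hno : ∀ (t : ℕ) (g : ℤ[X]), Nice Ω t g → 1 < M g → M g ≤ B →
      (g.natDegree : ℝ) ≤ C * Real.log (M g) ^ L)
    (f : ℤ[X]) : |f.leadingCoeff| = 1 → |f.trailingCoeff| = 1 →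
    (f.map (algebraMap ℤ Ω)).Splits → M f ≤ B →
    ∃ F : ℤ[X], M F = M f ∧ (F.natDegree : ℝ) ≤ C * Real.log (M f) ^ L := by
  refine WfDvdMonoid.induction_on_irreducible
    (motive := fun f : ℤ[X] => |f.leadingCoeff| = 1 → |f.trailingCoeff| = 1 →
    (f.map (algebraMap ℤ Ω)).Splits → M f ≤ B →
    ∃ F : ℤ[X], M F = M f ∧ (F.natDegree : ℝ) ≤ C * Real.log (M f) ^ L) f ?_ ?_ ?_
  · intro h
    simp at h
  · intro u hu _ _ _ _
    obtain ⟨r, hr, rfl⟩ := Polynomial.isUnit_iff.1 hu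
    refine ⟨Polynomial.C r, rfl, ?_⟩
    have h1 : M (Polynomial.C r) = 1 := by
      rw [M_C]
      rcases Int.isUnit_iff.1 hr with rfl | rfl <;> simp
    rw [h1, natDegree_C, Real.log_one, zero_pow (by omega)]
    simp
  · intro a i ha hi ih hl ht hs hM
    have hl' : |i.leadingCoeff| = 1 ∧ |a.leadingCoeff| = 1 := by
      rw [leadingCoeff_mul] at hl
      exact abs_eq_one_of_mul hl
    have ht' : |i.trailingCoeff| = 1 ∧ |a.trailingCoeff| = 1 := by
      rw [trailingCoeff_mul] at ht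
      exact abs_eq_one_of_mul ht
    have hi0 : i ≠ 0 := hi.ne_zero
    have hf0 : (i * a).map (algebraMap ℤ Ω) ≠ 0 := by
      rw [Ne, Polynomial.map_eq_zero_iff (FaithfulSMul.algebraMap_injective ℤ Ω)]
      exact mul_ne_zero hi0 ha
    have hsi : (i.map (algebraMap ℤ Ω)).Splits :=
      hs.of_dvd hf0 (Polynomial.map_dvd _ (dvd_mul_right _ _))
    have hsa : (a.map (algebraMap ℤ Ω)).Splits :=
      hs.of_dvd hf0 (Polynomial.map_dvd _ (dvd_mul_left _ _))
    have h1a : 1 ≤ M a := one_le_M ha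
    have h1i : 1 ≤ M i := one_le_M hi0
    rw [M_mul] at hM ⊢
    have hMa : M a ≤ B := le_trans (by nlinarith) hM
    have hMi : M i ≤ B := le_trans (by nlinarith) hM
    obtain ⟨F, hF, hFd⟩ := ih hl'.2 ht'.2 hsa hMa
    by_cases h1 : 1 < M i
    · obtain ⟨t, g, hg, hgM⟩ := exists_nice hi hsi hl'.1 ht'.1 h1
      have hgd := hno t g hg (by rw [hgM]; exact h1) (by rw [hgM]; exact hMi)
      refine ⟨g * F, by rw [M_mul, hgM, hF], ?_⟩
      have hd : ((g * F).natDegree : ℝ) = g.natDegree + F.natDegree := by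
        rw [natDegree_mul hg.irr.ne_zero]
        · push_cast; ring
        · intro h0
          rw [h0] at hF
          have : M (0 : ℤ[X]) = 0 := by simp [M]
          linarith
      rw [hd, Real.log_mul (by linarith) (by linarith)]
      rw [hgM] at hgd
      have h3 := add_pow_le (Real.log_nonneg h1i) (Real.log_nonneg h1a) L hL
      have h4 := mul_le_mul_of_nonneg_left h3 hC
      rw [mul_add] at h4
      linarith
    · have h1' : M i = 1 := le_antisymm (not_lt.1 h1) h1i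
      refine ⟨F, by rw [h1', one_mul, hF], ?_⟩
      rw [h1', one_mul]
      exact hFd

/-- polynomials with bounded coefficients -/
theorem exists_nice_of_coeff (L n₀ H : ℕ) : ∃ N : ℕ, ∀ g : ℤ[X], g.Monic → Irreducible g →
    |g.coeff 0| = 1 → (∀ i, |g.coeff i| ≤ H) →
    (∀ x y : ℂ, aeval x g = 0 → aeval y g = 0 → ∀ k : ℕ, 0 < k → x ^ k = y ^ k → x = y) →
    N ≤ g.natDegree → n₀ ≤ g.natDegree ∧
    ∃ t : ℕ, t ^ L ≤ g.natDegree ∧ Nice (rat g).SplittingField t g := by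
  obtain ⟨N, hN⟩ := exists_exponent L n₀ H
  refine ⟨N, fun g hm hi hc hH hnt hn => ?_⟩
  obtain ⟨h1, t, h2, h3⟩ := hN g.natDegree hn
  exact ⟨h1, t, h2, hm, hi, splits_self g, hc, (M_le_of_coeff g H hH).trans h3,
    nontors_of_complex g hnt⟩

end Pool.Agent.Lib.MP_7ab245_nt.Solv.RR
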