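import Mathlib
import Pool.Agent.Lib.MP_7ab245_nt.Solv.RR.Prod

/-! The conjugates of an algebraic unit of small height: final statements. -/

set_option autoImplicit false

open Polynomial Module

namespace Pool.Agent.Lib.MP_7ab245_nt.Solv.RR

/-- no quotient of two different roots is a root of unity -/
def NT (g : ℤ[X]) : Prop :=
  ∀ x y : ℂ, aeval x g = 0 → aeval y g = 0 → ∀ k : ℕ, 0 < k → x ^ k = y ^ k → x = y

/-- the roots are nearly algebraically free -/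
def Free (R D : ℕ) (g : ℤ[X]) : Prop :=
  ∀ r, 1 ≤ r → r ≤ R → ∀ x : Fin r → ℂ, (∀ i, aeval (x i) g = 0) →
    (∀ i j, i ≠ j → ∀ a b : ℤ, x i ^ a * x j ^ b = 1 → a = 0 ∧ b = 0) →
    (∀ a : Fin r → ℤ, ∏ i, x i ^ a i = 1 → a = 0) ∧
    (∀ P : MvPolynomial (Fin r) ℚ, P ≠ 0 → (∀ i, P.degreeOf i ^ D ≤ g.natDegree ^ (D - 1)) →
      MvPolynomial.aeval x P ≠ 0) ∧
    g.natDegree ^ (r * D - 1) < finrank ℚ (IntermediateField.adjoin ℚ (Set.range x)) ^ D

theorem Free.of_neg {R D : ℕ} {g : ℤ[X]} (h : Free R D (-g)) : Free R D g := by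
  intro r hr1 hr x hx
  have h1 := h r hr1 hr x (fun i => by rw [map_neg, hx i, neg_zero])
  rw [natDegree_neg] at h1
  exact h1

theorem NT.neg {g : ℤ[X]} (h : NT g) : NT (-g) := by
  intro x y hx hy
  rw [map_neg, neg_eq_zero] at hx hy
  exact h x y hx hy

theorem nt_of_nice {Ω : Type} [Field Ω] [NumberField Ω] [IsGalois ℚ Ω] {t : ℕ} {g : ℤ[X]}
    (hg : Nice Ω t g) : NT g := by
  obtain ⟨ι⟩ : Nonempty (Ω →+* ℂ) := inferInstance
  intro x y hx hy k hk hxy
  obtain ⟨x', hx', rfl⟩ := root_lift ι g hg.monic.ne_zero hg.splits x hx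
  obtain ⟨y', hy', rfl⟩ := root_lift ι g hg.monic.ne_zero hg.splits y hy
  rw [← map_pow, ← map_pow] at hxy
  rw [hg.nt x' y' hx' hy' k hk (ι.injective hxy)]

/-- All the statements. -/
theorem main (R D : ℕ) (hD : 1 ≤ D) : ∃ (L : ℕ) (C c : ℝ), 0 < C ∧ 0 < c ∧
    (∀ f : ℤ[X], Irreducible f → 1 < M f → Dep R f → 1 + c ≤ M f) ∧
    (∀ f : ℤ[X], Irreducible f → |f.leadingCoeff| = 1 → |f.coeff 0| = 1 → 1 < M f → Dep R f →
      ∃ F : ℤ[X], M F = M f ∧ (F.natDegree : ℝ) ≤ C * Real.log (M f) ^ L) ∧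
    (∀ g : ℤ[X], Irreducible g → |g.leadingCoeff| = 1 → |g.coeff 0| = 1 → NT g → 1 < M g →
      C * Real.log (M g) ^ L < g.natDegree → Free R D g) ∧
    (∀ H : ℕ, ∃ N : ℕ, ∀ g : ℤ[X], Irreducible g → |g.leadingCoeff| = 1 → |g.coeff 0| = 1 →
      NT g → (∀ i, |g.coeff i| ≤ H) → N ≤ g.natDegree → Free R D g) ∧
    (∀ f : ℤ[X], |f.leadingCoeff| = 1 → |f.trailingCoeff| = 1 → 1 < M f →
      (∃ F : ℤ[X], M F = M f ∧ (F.natDegree : ℝ) ≤ C * Real.log (M f) ^ L) ∨
      ∃ g : ℤ[X], Irreducible g ∧ NT g ∧ (g.map (Int.castRingHom (rat f).SplittingField)).Splits ∧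
        1 < M g ∧ M g ≤ M f ∧ C * Real.log (M g) ^ L < g.natDegree ∧ |g.leadingCoeff| = 1 ∧
        |g.coeff 0| = 1 ∧ Free R D g) := by
  obtain ⟨L₁, n₁, h1⟩ := part_zero R
  obtain ⟨L₂, n₂, h2⟩ := nice_complex R D hD
  set L := L₁ + L₂ + 1 with hL
  obtain ⟨C, hC, hdeg⟩ := deg_le_log L (n₁ + n₂ + 1)
  -- the criterion
  have hcrit : ∀ g : ℤ[X], 1 < M g → C * Real.log (M g) ^ L < g.natDegree →
      ∃ t : ℕ, M g ≤ 2 ^ t ∧ t ^ L ≤ g.natDegree ∧ n₁ + n₂ + 1 ≤ g.natDegree := by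
    intro g hg hlt
    by_contra hcon
    push Not at hcon
    exact absurd (hdeg g hg hcon) (not_le.2 hlt)
  have hpart1 : ∀ f : ℤ[X], Irreducible f → |f.leadingCoeff| = 1 → |f.coeff 0| = 1 → 1 < M f →
      Dep R f → ∃ F : ℤ[X], M F = M f ∧ (F.natDegree : ℝ) ≤ C * Real.log (M f) ^ L := by
    intro f hi hl hc hf hdep
    obtain ⟨F, hF, hF2⟩ := h1 f hi hl hc hf hdep
    refine ⟨F, hF, ?_⟩
    rw [← hF]
    by_contra hcon
    push Not at hcon
    obtain ⟨t, ht1, ht2, ht3⟩ := hcrit F (by rw [hF]; exact hf) hcon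
    have h3 := hF2 t ht1 (pow_le_of (by omega) ht2 (by omega))
    omega
  have hnice : ∀ (Ω : Type) [Field Ω] [NumberField Ω] [IsGalois ℚ Ω] (t : ℕ) (g : ℤ[X]),
      Nice Ω t g → t ^ L ≤ g.natDegree → n₂ + 1 ≤ g.natDegree → Free R D g := by
    intro Ω _ _ _ t g hg ht hn
    exact h2 Ω t g hg (pow_le_of (by omega) ht (by omega)) (by omega)
  have hpart2 : ∀ g : ℤ[X], Irreducible g → |g.leadingCoeff| = 1 → |g.coeff 0| = 1 → NT g →
      1 < M g → C * Real.log (M g) ^ L < g.natDegree → Free R D g := by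
    have key : ∀ g : ℤ[X], Irreducible g → g.Monic → |g.coeff 0| = 1 → NT g →
        1 < M g → C * Real.log (M g) ^ L < g.natDegree → Free R D g := by
      intro g hi hm hc hnt hg hlt
      obtain ⟨t, ht1, ht2, ht3⟩ := hcrit g hg hlt
      exact hnice (rat g).SplittingField t g
        ⟨hm, hi, splits_self g, hc, ht1, nontors_of_complex g hnt⟩ ht2 (by omega)
    intro g hi hl hc hnt hg hlt
    rcases eq_or_eq_neg_of_abs_eq hl with h | h
    · exact key g hi h hc hnt hg hlt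
    · exact (key (-g)
        ((Associated.irreducible_iff (Associated.neg_right (Associated.refl g))).1 hi)
        (by rw [Monic, leadingCoeff_neg, h, neg_neg]) (by rw [coeff_neg, abs_neg]; exact hc)
        hnt.neg (by rw [M_neg]; exact hg) (by rw [M_neg, natDegree_neg]; exact hlt)).of_neg
  -- the constant for Lehmer's problem
  obtain ⟨N₀, hN₀⟩ := exists_nat_ge (C * Real.log 2 ^ L)
  obtain ⟨c₀, hc₀, hsmall⟩ := small_degree N₀
  refine ⟨L, C, min c₀ 1, hC, lt_min hc₀ one_pos, ?_, hpart1, hpart2, ?_, ?_⟩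
  · intro f hi hf hdep
    by_contra hcon
    push Not at hcon
    have e1 : min c₀ 1 ≤ c₀ := min_le_left _ _
    have e2 : min c₀ 1 ≤ 1 := min_le_right _ _
    have hf2 : M f < 2 := by linarith
    obtain ⟨F, hF, hFd⟩ := hpart1 f hi (lc_of hi hf2) (c0_of hi hf hf2) hf hdep
    have h3 : Real.log (M f) ^ L ≤ Real.log 2 ^ L :=
      pow_le_pow_left₀ (Real.log_nonneg hf.le) (Real.log_le_log (by linarith) hf2.le) L
    have h4 : (F.natDegree : ℝ) ≤ N₀ :=
      hFd.trans ((mul_le_mul_of_nonneg_left h3 hC.le).trans hN₀)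
    have h5 := hsmall F (by exact_mod_cast h4) (by rw [hF]; exact hf)
    rw [hF] at h5
    linarith
  · intro H
    obtain ⟨N, hN⟩ := exists_nice_of_coeff L (n₂ + 1) H
    refine ⟨N, ?_⟩
    intro g hi hl hc hnt hH hn
    rcases eq_or_eq_neg_of_abs_eq hl with h | h
    · obtain ⟨h3, t, h4, h5⟩ := hN g h hi hc hH hnt hn
      exact hnice _ t g h5 h4 h3
    · obtain ⟨h3, t, h4, h5⟩ := hN (-g) (by rw [Monic, leadingCoeff_neg, h, neg_neg])
        ((Associated.irreducible_iff (Associated.neg_right (Associated.refl g))).1 hi)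
        (by rw [coeff_neg, abs_neg]; exact hc) (fun i => by rw [coeff_neg, abs_neg]; exact hH i)
        (NT.neg hnt) (by rw [natDegree_neg]; exact hn)
      exact (hnice _ t (-g) h5 h4 h3).of_neg
  · intro f hl ht hf
    by_cases hno : ∀ (t : ℕ) (g : ℤ[X]), Nice (rat f).SplittingField t g → 1 < M g → M g ≤ M f →
        (g.natDegree : ℝ) ≤ C * Real.log (M g) ^ L
    · left
      exact exists_prod hC.le L (by omega) hno f hl ht (splits_self f) le_rfl
    · right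
      push Not at hno
      obtain ⟨t, g, hg, hg1, hg2, hg3⟩ := hno
      have hl : |g.leadingCoeff| = 1 := by rw [hg.monic.leadingCoeff, abs_one]
      exact ⟨g, hg.irr, nt_of_nice hg, hg.splits, hg1, hg2, hg3, hl, hg.c0,
        hpart2 g hg.irr hl hg.c0 (nt_of_nice hg) hg1 hg3⟩

end Pool.Agent.Lib.MP_7ab245_nt.Solv.RR
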